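import Mathlib
namespace Pool.Agent.X98.CI
open Polynomial

noncomputable section

variable {K : Type*} [Field K]

def br (u v : K × K) : K := u.1 * v.2 - u.2 * v.1

/-- new vector at a replaced vertex -/
def Qv (A : ℤ → K × K) (c : ℤ → K) (i : ℤ) : K × K :=
  (c i * br (A i) (A (i-1))) • A (i+1) + (c (i-1) * br (A (i+1)) (A i)) • A (i-1)

def nxA (t : ℕ) (A : ℤ → K × K) (c : ℤ → K) (i : ℤ) : K × K :=
  if Even (i + t) then Qv A c i else A i
def nxc (t : ℕ) (c : ℤ → K) (j : ℤ) : K := if Even (j + t) then c (j-1) else c (j+1)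
def Qe (A : ℤ → K × K) (c : ℤ → K) (e : ℤ → K[X]) (i : ℤ) : K[X] :=
  C (c i * br (A i) (A (i-1))) * e (i+1) + C (c (i-1) * br (A (i+1)) (A i)) * e (i-1)
def nxe (t : ℕ) (A : ℤ → K × K) (c : ℤ → K) (e : ℤ → K[X]) (i : ℤ) : K[X] :=
  if Even (i + t) then Qe A c e i else e i

structure Inv (t : ℕ) (A : ℤ → K × K) (c : ℤ → K) (e : ℤ → K[X]) : Prop where
  i1 : ∀ i, ¬ Even (i + (t:ℤ)) → C (br (A (i-1)) (A i)) * e (i+1) + C (br (A i) (A (i+1))) * e (i-1)
    + C (br (A (i+1)) (A (i-1))) * e i = 0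
  i2 : ∀ i, Even (i + (t:ℤ)) → C (br (A i) (A (i-1))) * (1 - X * C (c i)) * e (i+1)
    + C (br (A (i-1)) (A (i+1))) * e i + C (br (A (i+1)) (A i)) * (1 - X * C (c (i-1))) * e (i-1) = 0

lemma R2 {t : ℕ} {A : ℤ → K × K} {c : ℤ → K} {e : ℤ → K[X]} (h : Inv t A c e) {i : ℤ} (hi : Even (i + (t:ℤ))) :
    X * Qe A c e i = C (br (A (i-1)) (A (i+1))) * e i + C (br (A i) (A (i-1))) * e (i+1)
      + C (br (A (i+1)) (A i)) * e (i-1) := by
  have := h.i2 i hi
  simp only [Qe, map_mul]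
  linear_combination -this

lemma ring_i2 {R : Type*} [CommRing R] (a1 a2 b1 b2 p1 p2 d1 d2 f1 f2 cm2 cm1 c0 cp1 x em2 em1 e0 ep1 ep2 : R)
    (hI1 : (b1*p2-b2*p1) * ep1 + (p1*d2-p2*d1) * em1 + (d1*b2-d2*b1) * e0 = 0)
    (hp : (d1*p2-d2*p1) * (1 - x * cp1) * ep2 + (p1*f2-p2*f1) * ep1 + (f1*d2-f2*d1) * (1 - x * c0) * e0 = 0)
    (hm : (b1*a2-b2*a1) * (1 - x * cm1) * e0 + (a1*p2-a2*p1) * em1 + (p1*b2-p2*b1) * (1 - x * cm2) * em2 = 0) :
    let q1 := cp1 * (d1*p2-d2*p1) * f1 + c0 * (f1*d2-f2*d1) * p1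
    let q2 := cp1 * (d1*p2-d2*p1) * f2 + c0 * (f1*d2-f2*d1) * p2
    let eq := cp1 * (d1*p2-d2*p1) * ep2 + c0 * (f1*d2-f2*d1) * e0
    let r1 := cm1 * (b1*a2-b2*a1) * p1 + cm2 * (p1*b2-p2*b1) * a1
    let r2 := cm1 * (b1*a2-b2*a1) * p2 + cm2 * (p1*b2-p2*b1) * a2
    let er := cm1 * (b1*a2-b2*a1) * e0 + cm2 * (p1*b2-p2*b1) * em2
    (p1*r2-p2*r1) * (1 - x * cp1) * eq + (r1*q2-r2*q1) * e0 + (q1*p2-q2*p1) * (1 - x * cm2) * er = 0 := by
  intro q1 q2 eq r1 r2 er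
  have h1 : (1 - x * cp1) * eq = -(cp1 - c0) * (f1*d2-f2*d1) * e0 - cp1 * (p1*f2-p2*f1) * ep1 := by
    simp only [eq]; linear_combination cp1 * hp
  have h2 : (1 - x * cm2) * er = -(cm2 - cm1) * (b1*a2-b2*a1) * e0 - cm2 * (a1*p2-a2*p1) * em1 := by
    simp only [er]; linear_combination cm2 * hm
  have h3 : (p1*r2-p2*r1) * (1 - x * cp1) * eq = (p1*r2-p2*r1) * (-(cp1 - c0) * (f1*d2-f2*d1) * e0 - cp1 * (p1*f2-p2*f1) * ep1) := by
    rw [← h1]; ring
  have h4 : (q1*p2-q2*p1) * (1 - x * cm2) * er = (q1*p2-q2*p1) * (-(cm2 - cm1) * (b1*a2-b2*a1) * e0 - cm2 * (a1*p2-a2*p1) * em1) := by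
    rw [← h2]; ring
  rw [h3, h4]
  simp only [q1, q2, r1, r2]
  linear_combination (- cp1 * cm2 * (p1*f2-p2*f1) * (a1*p2-a2*p1)) * hI1

lemma inv_next {t : ℕ} {A : ℤ → K × K} {c : ℤ → K} {e : ℤ → K[X]} (h : Inv t A c e) :
    Inv (t+1) (nxA t A c) (nxc t c) (nxe t A c e) := by
  constructor
  · intro i hi
    have hi' : Even (i + (t:ℤ)) := by
      push_cast at hi
      rcases Int.even_or_odd (i + (t:ℤ)) with h | h
      · exact h
      · exact absurd (by rw [← add_assoc]; exact h.add_one) hi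
    have hm : ¬ Even (i - 1 + (t:ℤ)) := by
      intro h2; have := hi'.sub h2; ring_nf at this; exact absurd this (by decide)
    have hp : ¬ Even (i + 1 + (t:ℤ)) := by
      intro h2; have := h2.sub hi'; ring_nf at this; exact absurd this (by decide)
    simp only [nxA, nxe, hi', hm, hp, if_true, if_false, Qv, Qe, br, Prod.fst_add, Prod.snd_add, Prod.smul_fst,
      Prod.smul_snd, smul_eq_mul, map_mul, map_add, map_sub]
    ring
  · intro i hi
    have hi' : ¬ Even (i + (t:ℤ)) := by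
      push_cast at hi
      intro h2; have := hi.sub h2; ring_nf at this; exact absurd this (by decide)
    have hm : Even (i - 1 + (t:ℤ)) := by
      rw [Int.even_iff] at *; omega
    have hp : Even (i + 1 + (t:ℤ)) := by
      rw [Int.even_iff] at *; omega
    have k0 := h.i1 i hi'
    have kp := h.i2 (i+1) hp
    have km := h.i2 (i-1) hm
    have e1 : i - 1 + 1 = i := by ring
    have e2 : i + 1 - 1 = i := by ring
    have e3 : i + 1 + 1 = i + 2 := by ring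
    have e4 : i - 1 - 1 = i - 2 := by ring
    simp only [e1, e2, e3, e4] at kp km
    simp only [nxA, nxe, nxc, hi', hm, hp, if_true, if_false, Qv, Qe, e1, e2, e3, e4]
    simp only [br, Prod.fst_add, Prod.snd_add, Prod.smul_fst, Prod.smul_snd, smul_eq_mul, map_mul, map_add, map_sub] at k0 kp km ⊢
    have := ring_i2 (C (A (i-2)).1) (C (A (i-2)).2) (C (A (i-1)).1) (C (A (i-1)).2) (C (A i).1) (C (A i).2)
      (C (A (i+1)).1) (C (A (i+1)).2) (C (A (i+2)).1) (C (A (i+2)).2) (C (c (i-2))) (C (c (i-1))) (C (c i)) (C (c (i+1)))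
      X (e (i-2)) (e (i-1)) (e i) (e (i+1)) (e (i+2)) k0 kp km
    simp only at this
    convert this using 1

structure Bnd (t : ℕ) (e : ℤ → K[X]) (a b : ℕ) : Prop where
  lo : ∀ i, Even (i + (t:ℤ)) → ∀ k, a ≤ k → (e i).coeff k = 0
  up : ∀ i, ¬ Even (i + (t:ℤ)) → ∀ k, b ≤ k → (e i).coeff k = 0

lemma par_succ (i : ℤ) (t : ℕ) : Even (i + ((t+1 : ℕ):ℤ)) ↔ ¬ Even (i + (t:ℤ)) := by
  push_cast
  rw [← add_assoc, Int.even_add_one]

lemma not_par_nb {i : ℤ} {t : ℕ} (hi : Even (i + (t:ℤ))) : ¬ Even (i - 1 + (t:ℤ)) ∧ ¬ Even (i + 1 + (t:ℤ)) := by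
  constructor
  · intro h2; have := hi.sub h2; ring_nf at this; exact absurd this (by decide)
  · intro h2; have := h2.sub hi; ring_nf at this; exact absurd this (by decide)

lemma bnd_next {t : ℕ} {A : ℤ → K × K} {c : ℤ → K} {e : ℤ → K[X]} (h : Inv t A c e) {a b m : ℕ}
    (hb : Bnd t e a b) (ha : a ≤ m + 1) (hb' : b ≤ m + 1) : Bnd (t+1) (nxe t A c e) b m := by
  constructor
  · intro i hi k hk
    rw [par_succ] at hi
    simp only [nxe, hi, if_false]
    exact hb.up i hi k hk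
  · intro i hi k hk
    rw [par_succ, not_not] at hi
    simp only [nxe, hi, if_true]
    have h2 := congrArg (fun p => p.coeff (k+1)) (R2 h hi)
    simp only [coeff_X_mul, coeff_add, coeff_C_mul] at h2
    rw [h2, hb.lo i hi (k+1) (by omega), hb.up _ (not_par_nb hi).1 (k+1) (by omega),
      hb.up _ (not_par_nb hi).2 (k+1) (by omega)]
    simp

lemma ne_next {t : ℕ} {A : ℤ → K × K} {c : ℤ → K} {e : ℤ → K[X]} (h : Inv t A c e)
    (hnd : ∀ i, Even (i + (t:ℤ)) → br (A (i-1)) (A (i+1)) ≠ 0) (hne : ∃ i, e i ≠ 0) : ∃ i, nxe t A c e i ≠ 0 := by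
  by_contra hcon
  push Not at hcon
  obtain ⟨i, hi⟩ := hne
  have hup : ∀ j, ¬ Even (j + (t:ℤ)) → e j = 0 := by
    intro j hj; have := hcon j; simpa only [nxe, hj, if_false] using this
  by_cases hp : Even (i + (t:ℤ))
  · have h1 := R2 h hp
    have h2 := hcon i
    simp only [nxe, hp, if_true] at h2
    rw [h2, hup _ (not_par_nb hp).1, hup _ (not_par_nb hp).2] at h1
    simp only [mul_zero, add_zero] at h1
    rcases mul_eq_zero.mp h1.symm with h3 | h3
    · exact hnd i hp (by simpa using h3)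
    · exact hi h3
  · exact hi (hup i hp)

/-- sequences of states -/
def sA (A0 : ℤ → K × K) (c0 : ℤ → K) : ℕ → (ℤ → K × K) × (ℤ → K)
  | 0 => (A0, c0)
  | t+1 => (nxA t (sA A0 c0 t).1 (sA A0 c0 t).2, nxc t (sA A0 c0 t).2)

def se (A0 : ℤ → K × K) (c0 : ℤ → K) (e0 : ℤ → K[X]) : ℕ → (ℤ → K[X])
  | 0 => e0
  | t+1 => nxe t (sA A0 c0 t).1 (sA A0 c0 t).2 (se A0 c0 e0 t)

lemma inv_all {A0 : ℤ → K × K} {c0 : ℤ → K} {e0 : ℤ → K[X]} (h : Inv 0 A0 c0 e0) (t : ℕ) :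
    Inv t (sA A0 c0 t).1 (sA A0 c0 t).2 (se A0 c0 e0 t) := by
  induction t with
  | zero => exact h
  | succ t ih => exact inv_next ih

lemma bnd_all {A0 : ℤ → K × K} {c0 : ℤ → K} {e0 : ℤ → K[X]} (h : Inv 0 A0 c0 e0) {n : ℕ}
    (hb : Bnd 0 e0 (n-1) (n-2)) (j : ℕ) (hj : j + 2 ≤ n) :
    Bnd (2*j) (se A0 c0 e0 (2*j)) (n-1-j) (n-2-j) := by
  induction j with
  | zero => simpa [se] using hb
  | succ j ih =>
    have h1 := bnd_next (m := n-2-j) (inv_all h (2*j)) (ih (by omega)) (by omega) (by omega)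
    have h2 := bnd_next (m := n-2-(j+1)) (inv_all h (2*j+1)) h1 (by omega) (by omega)
    have e : 2*(j+1) = 2*j+1+1 := by ring
    rw [e]
    have e' : n - 1 - (j+1) = n - 2 - j := by omega
    rw [e']
    exact h2

lemma functional {A : ℤ → K × K} {e : ℤ → K[X]}
    (hnd : ∀ i, br (A i) (A (i+1)) ≠ 0)
    (hlin : ∀ i, C (br (A (i-1)) (A (i+1))) * e i + C (br (A i) (A (i-1))) * e (i+1)
      + C (br (A (i+1)) (A i)) * e (i-1) = 0) :
    ∃ f1 f2 : K[X], ∀ i, e i = C (A i).1 * f1 + C (A i).2 * f2 := by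
  have hlin' : ∀ i, C (br (A i) (A (i+2))) * e (i+1) + C (br (A (i+1)) (A i)) * e (i+2)
      + C (br (A (i+2)) (A (i+1))) * e i = 0 := by
    intro i
    have := hlin (i+1)
    have e2 : i + 1 - 1 = i := by ring
    have e3 : i + 1 + 1 = i + 2 := by ring
    simpa only [e2, e3] using this
  set δ := br (A 0) (A 1) with hδ
  have hδ0 : δ ≠ 0 := hnd 0
  have hC : (C δ⁻¹ : K[X]) * C δ = 1 := by rw [← C_mul, inv_mul_cancel₀ hδ0, C_1]
  refine ⟨C δ⁻¹ * (C (A 1).2 * e 0 - C (A 0).2 * e 1), C δ⁻¹ * (C (A 0).1 * e 1 - C (A 1).1 * e 0), ?_⟩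
  set f1 := C δ⁻¹ * (C (A 1).2 * e 0 - C (A 0).2 * e 1)
  set f2 := C δ⁻¹ * (C (A 0).1 * e 1 - C (A 1).1 * e 0)
  have base0 : e 0 = C (A 0).1 * f1 + C (A 0).2 * f2 := by
    have hd : (C δ : K[X]) = C (A 0).1 * C (A 1).2 - C (A 0).2 * C (A 1).1 := by
      rw [hδ, br]; simp
    simp only [f1, f2]
    rw [hd] at hC
    linear_combination (-e 0) * hC
  have base1 : e 1 = C (A 1).1 * f1 + C (A 1).2 * f2 := by
    have hd : (C δ : K[X]) = C (A 0).1 * C (A 1).2 - C (A 0).2 * C (A 1).1 := by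
      rw [hδ, br]; simp
    simp only [f1, f2]
    rw [hd] at hC
    linear_combination (-e 1) * hC
  have key : ∀ i : ℤ, (e i = C (A i).1 * f1 + C (A i).2 * f2) ∧ (e (i+1) = C (A (i+1)).1 * f1 + C (A (i+1)).2 * f2) := by
    intro i
    induction i using Int.induction_on with
    | zero => exact ⟨base0, by simpa using base1⟩
    | succ k ih =>
      refine ⟨ih.2, ?_⟩
      have h1 := hlin' k
      rw [ih.1, ih.2] at h1
      have e3 : (k:ℤ) + 1 + 1 = k + 2 := by ring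
      rw [e3]
      have hn : (C (br (A (k+1)) (A k)) : K[X]) ≠ 0 := by
        rw [Ne, C_eq_zero]
        intro h0
        apply hnd k
        simp only [br] at h0 ⊢
        linear_combination -h0
      apply mul_left_cancel₀ hn
      simp only [br, map_sub, map_mul] at h1 ⊢
      linear_combination h1
    | pred k ih =>
      have e1 : (-(k:ℤ) - 1 + 1) = -k := by ring
      have h1 := hlin' (-(k:ℤ) - 1)
      have e3 : (-(k:ℤ) - 1 + 2) = -k + 1 := by ring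
      rw [e1, e3] at h1
      rw [e1]
      refine ⟨?_, ih.1⟩
      rw [ih.1, ih.2] at h1
      have hn : (C (br (A (-(k:ℤ)+1)) (A (-k))) : K[X]) ≠ 0 := by
        rw [Ne, C_eq_zero]
        intro h0
        apply hnd (-k)
        simp only [br] at h0 ⊢
        linear_combination -h0
      apply mul_left_cancel₀ hn
      simp only [br, map_sub, map_mul] at h1 ⊢
      linear_combination h1
  exact fun i => (key i).1

theorem alg_main {A0 : ℤ → K × K} {c0 : ℤ → K} {e0 : ℤ → K[X]} (h : Inv 0 A0 c0 e0) {n : ℕ} (hn : 3 ≤ n)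
    (hb : Bnd 0 e0 (n-1) (n-2)) (hne : ∃ i, e0 i ≠ 0)
    (hnd : ∀ t < 2*n-5, ∀ i, Even (i + (t:ℤ)) → br ((sA A0 c0 t).1 (i-1)) ((sA A0 c0 t).1 (i+1)) ≠ 0)
    (hcons : ∀ i, br ((sA A0 c0 (2*n-5)).1 i) ((sA A0 c0 (2*n-5)).1 (i+1)) ≠ 0) :
    ∀ i j, Even (i + ((2*n-5 : ℕ):ℤ)) → Even (j + ((2*n-5 : ℕ):ℤ)) →
      br (Qv (sA A0 c0 (2*n-5)).1 (sA A0 c0 (2*n-5)).2 i) (Qv (sA A0 c0 (2*n-5)).1 (sA A0 c0 (2*n-5)).2 j) = 0 := by
  have hN : ∀ t ≤ 2*n-5, ∃ i, se A0 c0 e0 t i ≠ 0 := by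
    intro t
    induction t with
    | zero => intro _; exact hne
    | succ t ih => intro ht; exact ne_next (inv_all h t) (hnd t (by omega)) (ih (by omega))
  have hT : 2*n-5 = 2*(n-3)+1 := by omega
  obtain ⟨i0, hi0⟩ := hN (2*n-5) le_rfl
  have hb1 : Bnd (2*n-5) (se A0 c0 e0 (2*n-5)) 1 1 := by
    rw [hT]
    have := bnd_next (m := 1) (inv_all h (2*(n-3))) (bnd_all h hb (n-3) (by omega)) (by omega) (by omega)
    have e : n - 2 - (n-3) = 1 := by omega
    rw [e] at this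
    exact this
  have hb2 := bnd_next (m := 0) (inv_all h (2*n-5)) hb1 (by omega) (by omega)
  set A := (sA A0 c0 (2*n-5)).1
  set c := (sA A0 c0 (2*n-5)).2
  set e := se A0 c0 e0 (2*n-5)
  have hI : Inv (2*n-5) A c e := inv_all h (2*n-5)
  have hQ0 : ∀ i, Even (i + ((2*n-5 : ℕ):ℤ)) → Qe A c e i = 0 := by
    intro i hi
    have := hb2.up i (by rw [par_succ, not_not]; exact hi)
    simp only [nxe, hi, if_true] at this
    ext k
    rw [this k (Nat.zero_le _)]; simp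
  have hlin : ∀ i, C (br (A (i-1)) (A (i+1))) * e i + C (br (A i) (A (i-1))) * e (i+1)
      + C (br (A (i+1)) (A i)) * e (i-1) = 0 := by
    intro i
    by_cases hi : Even (i + ((2*n-5 : ℕ):ℤ))
    · rw [← R2 hI hi, hQ0 i hi, mul_zero]
    · have := hI.i1 i hi
      simp only [br, map_sub, map_mul] at this ⊢
      linear_combination -this
  obtain ⟨f1, f2, hf⟩ := functional hcons hlin
  -- a coefficient where f is nonzero
  have hf0 : f1 ≠ 0 ∨ f2 ≠ 0 := by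
    by_contra hcon
    push Not at hcon
    apply hi0
    rw [hf i0, hcon.1, hcon.2]; simp
  have hker : ∀ i, Even (i + ((2*n-5 : ℕ):ℤ)) → C (Qv A c i).1 * f1 + C (Qv A c i).2 * f2 = 0 := by
    intro i hi
    have h1 := hQ0 i hi
    simp only [Qe, hf, map_mul] at h1
    simp only [Qv, Prod.fst_add, Prod.snd_add, Prod.smul_fst, Prod.smul_snd, smul_eq_mul, map_mul, map_add]
    linear_combination h1
  intro i j hi hj
  have h1 := hker i hi
  have h2 := hker j hj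
  have h3 : C (br (Qv A c i) (Qv A c j)) * f1 = 0 := by
    simp only [br, map_sub, map_mul]
    linear_combination (C (Qv A c j).2) * h1 - C (Qv A c i).2 * h2
  have h4 : C (br (Qv A c i) (Qv A c j)) * f2 = 0 := by
    simp only [br, map_sub, map_mul]
    linear_combination (C (Qv A c i).1) * h2 - C (Qv A c j).1 * h1
  rcases hf0 with hf0 | hf0
  · rcases mul_eq_zero.mp h3 with h5 | h5
    · simpa using h5
    · exact absurd h5 hf0
  · rcases mul_eq_zero.mp h4 with h5 | h5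
    · simpa using h5
    · exact absurd h5 hf0

end

end Pool.Agent.X98.CI
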