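import Pool.Agent.X98.CI.Loc
namespace Pool.Agent.X98.CI
open Complex OnePoint
open scoped ComplexConjugate

noncomputable section

lemma exists_rep {v : ℂ × ℂ} (hv : v ≠ 0) : ∃ (Y : OnePoint ℂ) (τ : ℂ), τ ≠ 0 ∧ v = τ • rep Y := by
  by_cases h : v.2 = 0
  · refine ⟨∞, v.1, ?_, ?_⟩
    · intro h1; exact hv (Prod.ext h1 h)
    · apply Prod.ext
      · simp
      · simpa using h
  · refine ⟨((v.1 / v.2 : ℂ) : OnePoint ℂ), v.2, h, ?_⟩
    apply Prod.ext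
    · simp only [rep_coe, Prod.smul_fst, smul_eq_mul]
      field_simp
    · simp

lemma br_smul (a b : ℂ) (u v : ℂ × ℂ) : br (a • u) (b • v) = a * b * br u v := by
  simp only [br, Prod.smul_fst, Prod.smul_snd, smul_eq_mul]; ring

lemma par {X : OnePoint ℂ} {v : ℂ × ℂ} (hv : v ≠ 0) (h : br (rep X) v = 0) : ∃ τ : ℂ, τ ≠ 0 ∧ v = τ • rep X := by
  obtain ⟨Y, τ, hτ, rfl⟩ := exists_rep hv
  have : br (rep X) (rep Y) = 0 := by
    have h2 := br_smul 1 τ (rep X) (rep Y)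
    rw [one_smul, h] at h2
    have h3 : τ * br (rep X) (rep Y) = 0 := by linear_combination -h2
    exact (mul_eq_zero.mp h3).resolve_left hτ
  rw [rep_br] at this
  exact ⟨τ, hτ, by rw [this]⟩

structure Data (T : ℕ) (R : ℕ → ℤ → OnePoint ℂ) (U : ℕ → ℤ → Herm) (L : ℤ → Herm) : Prop where
  h1 : ∀ t ≤ T, ∀ i, Even (i+(t:ℤ)) → Z (U t (i-1)) ∩ Z (U t (i+1)) = {R t i, R (t+1) i}
  h2 : ∀ t ≤ T, ∀ i, Even (i+(t:ℤ)) → ∃ Y, Y ∈ Z (U t (i-1)) ∧ Y ∉ Z (U t (i+1))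
  h3 : ∀ t ≤ T, ∀ j, ¬Even (j+(t:ℤ)) → R t (j-1) ∈ Z (U t j) ∧ R t j ∈ Z (U t j) ∧ R t (j+1) ∈ Z (U t j)
  h4 : ∀ t ≤ T, ∀ j, R t j ≠ R t (j+1)
  h5 : ∀ t ≤ T, 1 ≤ t → ∀ j, ¬Even (j+(t:ℤ)) → R t (j-1) ≠ R t (j+1)
  h6 : ∀ t < T, ∀ j, ¬Even (j+(t:ℤ)) → R (t+1) j = R t j
  nu : ∀ t ≤ T, ∀ j, ¬Even (j+(t:ℤ)) → (U t j).nz
  l0 : ∀ j, Even j → (L j).nz ∧ R 0 (j-1) ∈ Z (L j) ∧ R 0 j ∈ Z (L j) ∧ R 0 (j+1) ∈ Z (L j)

def HH (U : ℕ → ℤ → Herm) (L : ℤ → Herm) : ℕ → ℤ → Herm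
  | 0 => fun j => if Even j then L j else U 0 j
  | t+1 => fun j => if Even (j + (t:ℤ)) then U (t+1) j else HH U L t j

lemma HH_up (U : ℕ → ℤ → Herm) (L : ℤ → Herm) (t : ℕ) (j : ℤ) (h : ¬ Even (j + (t:ℤ))) : HH U L t j = U t j := by
  cases t with
  | zero =>
    have : ¬ Even j := by simpa using h
    simp [HH, this]
  | succ t =>
    rw [par_succ, not_not] at h
    simp [HH, h]

structure GS (t : ℕ) (R : ℕ → ℤ → OnePoint ℂ) (H : ℤ → Herm) (A : ℤ → ℂ × ℂ) (c : ℤ → ℂ) : Prop where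
  a : ∀ j, ∃ τ : ℂ, τ ≠ 0 ∧ A j = τ • rep (R t j)
  b : ∀ j, (H j).nz ∧ R t (j-1) ∈ Z (H j) ∧ R t j ∈ Z (H j) ∧ R t (j+1) ∈ Z (H j)
  c : ∀ j, (1 - c j) * (H (j+1)).f (A j) (A (j+1)) * conj ((H j).f (A j) (A (j+1)))
    = (H j).f (A j) (A (j+1)) * conj ((H (j+1)).f (A j) (A (j+1)))

lemma van {H : Herm} {X : OnePoint ℂ} {v : ℂ × ℂ} (hX : X ∈ Z H) (hv : ∃ τ : ℂ, τ ≠ 0 ∧ v = τ • rep X) : H.f v v = 0 := by
  obtain ⟨τ, _, rfl⟩ := hv
  rw [f_smul]
  have : H.f (rep X) (rep X) = 0 := hX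
  rw [this, mul_zero]

lemma brne {X Y : OnePoint ℂ} {u v : ℂ × ℂ} (h : X ≠ Y) (hu : ∃ τ : ℂ, τ ≠ 0 ∧ u = τ • rep X) (hv : ∃ τ : ℂ, τ ≠ 0 ∧ v = τ • rep Y) :
    br u v ≠ 0 := by
  obtain ⟨τ, h1, rfl⟩ := hu
  obtain ⟨σ, h2, rfl⟩ := hv
  rw [br_smul]
  refine mul_ne_zero (mul_ne_zero h1 h2) ?_
  rwa [Ne, rep_br]

lemma treq {R : ℤ → OnePoint ℂ} {A : ℤ → ℂ × ℂ} (a : ∀ j, ∃ τ : ℂ, τ ≠ 0 ∧ A j = τ • rep (R j)) {i j : ℤ} (h : i = j) :
    ∃ τ : ℂ, τ ≠ 0 ∧ A i = τ • rep (R j) := h ▸ a i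

section
variable {T : ℕ} {R : ℕ → ℤ → OnePoint ℂ} {U : ℕ → ℤ → Herm} {L : ℤ → Herm}

lemma mkLD (D : Data T R U L) {t : ℕ} (ht : t ≤ T) {H : ℤ → Herm} {A : ℤ → ℂ × ℂ} {c : ℤ → ℂ}
    (S : GS t R H A c) (i : ℤ) : LD (H (i-1)) (H i) (H (i+1)) (A (i-1)) (A i) (A (i+1)) (c i) (c (i-1)) := by
  have e1 : i - 1 + 1 = i := by ring
  have e2 : i + 1 - 1 = i := by ring
  have bm := S.b (i-1)
  have b0 := S.b i
  have bp := S.b (i+1)
  rw [e1] at bm
  rw [e2] at bp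
  have hc := S.c (i-1)
  rw [e1] at hc
  have h4 := D.h4 t ht (i-1)
  rw [e1] at h4
  exact { m1 := van bm.2.2.1 (S.a _), m2 := van bm.2.2.2 (S.a _), h1 := van b0.2.1 (S.a _), h2 := van b0.2.2.1 (S.a _),
          h3 := van b0.2.2.2 (S.a _), p1 := van bp.2.1 (S.a _), p2 := van bp.2.2.1 (S.a _),
          s := brne h4.symm (S.a _) (S.a _), s' := brne (D.h4 t ht i).symm (S.a _) (S.a _),
          nm := bm.1, nh := b0.1, np := bp.1, stm := hc, stp := S.c i }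

lemma newpt (D : Data T R U L) {t : ℕ} (ht : t ≤ T) {A : ℤ → ℂ × ℂ} {c : ℤ → ℂ}
    (S : GS t R (HH U L t) A c) (i : ℤ) (hi : Even (i + (t:ℤ))) :
    ∃ τ : ℂ, τ ≠ 0 ∧ Qv A c i = τ • rep (R (t+1) i) := by
  have K := mkLD D ht S i
  have hQ : Qv A c i = LD.Q (A (i-1)) (A i) (A (i+1)) (c i) (c (i-1)) := rfl
  have um : HH U L t (i-1) = U t (i-1) := HH_up U L t _ (not_par_nb hi).1
  have up : HH U L t (i+1) = U t (i+1) := HH_up U L t _ (not_par_nb hi).2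
  rw [um, up] at K
  have hI := D.h1 t ht i hi
  obtain ⟨Y, hY1, hY2⟩ := D.h2 t ht i hi
  have Qne : LD.Q (A (i-1)) (A i) (A (i+1)) (c i) (c (i-1)) ≠ 0 := K.Qne (Y := rep Y) hY1 hY2
  rw [hQ]
  apply par Qne
  obtain ⟨W, τ, hτ, hW⟩ := exists_rep Qne
  have hW1 : W ∈ Z (U t (i-1)) := by
    have := K.ll1m
    rw [hW, f_smul] at this
    exact (mul_eq_zero.mp this).resolve_left (mul_ne_zero (by simpa using hτ) hτ)
  have hW2 : W ∈ Z (U t (i+1)) := by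
    have := K.ll1p
    rw [hW, f_smul] at this
    exact (mul_eq_zero.mp this).resolve_left (mul_ne_zero (by simpa using hτ) hτ)
  have hW3 : W ∈ ({R t i, R (t+1) i} : Set (OnePoint ℂ)) := by rw [← hI]; exact ⟨hW1, hW2⟩
  have hX3 : R (t+1) i ∈ Z (U t (i-1)) ∩ Z (U t (i+1)) := by rw [hI]; simp
  by_cases hXr : R (t+1) i = R t i
  · rw [hXr]
    have : W = R t i := by
      rw [hXr] at hW3; simpa using hW3
    rw [hW, this]
    simp only [br, Prod.smul_fst, Prod.smul_snd, smul_eq_mul]; ring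
  · have hrX : br (A i) (rep (R (t+1) i)) ≠ 0 := brne (Ne.symm hXr) (S.a i) ⟨1, one_ne_zero, by simp⟩
    by_cases hd : br (A (i-1)) (A (i+1)) = 0
    · -- p parallel p'
      have e1 : R t (i-1) = R t (i+1) := by
        by_contra hne
        exact brne hne (S.a _) (S.a _) hd
      have hbm := S.b (i-1)
      have hbp := S.b (i+1)
      rw [um] at hbm
      rw [up] at hbp
      have h5 : R t (i-1) ∈ ({R t i, R (t+1) i} : Set (OnePoint ℂ)) := by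
        rw [← hI]; exact ⟨hbm.2.2.1, by rw [e1]; exact hbp.2.2.1⟩
      have h6 : R t (i-1) ≠ R t i := by
        have := D.h4 t ht (i-1)
        rwa [sub_add_cancel] at this
      have h7 : R t (i-1) = R (t+1) i := by
        rcases h5 with h | h
        · exact absurd h h6
        · exact h
      have h8 : br (A (i-1)) (LD.Q (A (i-1)) (A i) (A (i+1)) (c i) (c (i-1))) = 0 := by
        have : br (A (i-1)) (LD.Q (A (i-1)) (A i) (A (i+1)) (c i) (c (i-1))) = c i * br (A i) (A (i-1)) * br (A (i-1)) (A (i+1)) := by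
          simp only [LD.Q, br, Prod.fst_add, Prod.snd_add, Prod.smul_fst, Prod.smul_snd, smul_eq_mul]; ring
        rw [this, hd, mul_zero]
      obtain ⟨σ, hσ, hA⟩ := S.a (i-1)
      rw [← h7]
      have h9 := br_smul σ 1 (rep (R t (i-1))) (LD.Q (A (i-1)) (A i) (A (i+1)) (c i) (c (i-1)))
      rw [one_smul, ← hA, h8] at h9
      have h10 : σ * br (rep (R t (i-1))) (LD.Q (A (i-1)) (A i) (A (i+1)) (c i) (c (i-1))) = 0 := by
        linear_combination -h9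
      exact (mul_eq_zero.mp h10).resolve_left hσ
    · exact K.ll2 hX3.1 hX3.2 hrX hd

lemma step (D : Data T R U L) {t : ℕ} (ht : t < T) {A : ℤ → ℂ × ℂ} {c : ℤ → ℂ}
    (S : GS t R (HH U L t) A c) : GS (t+1) R (HH U L (t+1)) (nxA t A c) (nxc t c) := by
  have hnp : ∀ {i : ℤ}, Even (i + (t:ℤ)) → ¬ Even (i + ((t+1 : ℕ):ℤ)) := by
    intro i h; rw [par_succ, not_not]; exact h
  have ha : ∀ j, ∃ τ : ℂ, τ ≠ 0 ∧ nxA t A c j = τ • rep (R (t+1) j) := by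
    intro j
    by_cases hj : Even (j + (t:ℤ))
    · simp only [nxA, hj, if_true]
      exact newpt D ht.le S j hj
    · simp only [nxA, hj, if_false]
      rw [D.h6 t ht j hj]
      exact S.a j
  have hGn : ∀ i, Even (i + (t:ℤ)) →
      ((1 - c i) * (U (t+1) i).f (A (i-1)) (Qv A c i) * conj ((HH U L t (i-1)).f (A (i-1)) (Qv A c i))
        = (HH U L t (i-1)).f (A (i-1)) (Qv A c i) * conj ((U (t+1) i).f (A (i-1)) (Qv A c i))) ∧
      ((1 - c (i-1)) * (HH U L t (i+1)).f (Qv A c i) (A (i+1)) * conj ((U (t+1) i).f (Qv A c i) (A (i+1)))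
        = (U (t+1) i).f (Qv A c i) (A (i+1)) * conj ((HH U L t (i+1)).f (Qv A c i) (A (i+1)))) := by
    intro i hi
    have K := mkLD D ht.le S i
    have hQ := newpt D ht.le S i hi
    have nb := not_par_nb hi
    have h3 := D.h3 (t+1) ht i (hnp hi)
    have r1 : R (t+1) (i-1) = R t (i-1) := D.h6 t ht _ nb.1
    have r2 : R (t+1) (i+1) = R t (i+1) := D.h6 t ht _ nb.2
    have h5 := D.h5 (t+1) ht (by omega) i (hnp hi)
    rw [r1, r2] at h5
    rw [r1, r2] at h3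
    have h4 := D.h4 (t+1) ht (i-1)
    rw [sub_add_cancel, r1] at h4
    have h4' := D.h4 (t+1) ht i
    rw [r2] at h4'
    exact K.ll3 (G := U (t+1) i) (brne h5 (S.a _) (S.a _)) (van h3.1 (S.a _)) (van h3.2.1 hQ) (van h3.2.2 (S.a _))
      (brne h4 (S.a _) hQ) (brne h4' hQ (S.a _))
  refine ⟨ha, ?_, ?_⟩
  · intro j
    by_cases hj : Even (j + (t:ℤ))
    · have e : HH U L (t+1) j = U (t+1) j := HH_up U L (t+1) j (hnp hj)
      rw [e]
      exact ⟨D.nu (t+1) ht j (hnp hj), D.h3 (t+1) ht j (hnp hj)⟩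
    · have e : HH U L (t+1) j = U t j := by
        simp only [HH, hj, if_false]
        exact HH_up U L t j hj
      rw [e]
      have hm : Even (j - 1 + (t:ℤ)) := by
        rw [Int.even_iff] at *; omega
      have hp : Even (j + 1 + (t:ℤ)) := by
        rw [Int.even_iff] at *; omega
      have k1 := D.h1 t ht.le (j-1) hm
      have k2 := D.h1 t ht.le (j+1) hp
      rw [sub_add_cancel] at k1
      rw [add_sub_cancel_right] at k2
      have m1 : R (t+1) (j-1) ∈ Z (U t (j-1-1)) ∩ Z (U t j) := by rw [k1]; simp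
      have m2 : R (t+1) (j+1) ∈ Z (U t j) ∩ Z (U t (j+1+1)) := by rw [k2]; simp
      refine ⟨D.nu t ht.le j hj, m1.2, ?_, m2.1⟩
      rw [D.h6 t ht j hj]
      exact (D.h3 t ht.le j hj).2.1
  · intro j
    by_cases hj : Even (j + (t:ℤ))
    · have hp := (not_par_nb hj).2
      have e1 : HH U L (t+1) j = U (t+1) j := HH_up U L (t+1) j (hnp hj)
      have e2 : HH U L (t+1) (j+1) = HH U L t (j+1) := by simp only [HH, hp, if_false]
      have e3 : nxA t A c j = Qv A c j := by simp only [nxA, hj, if_true]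
      have e4 : nxA t A c (j+1) = A (j+1) := by simp only [nxA, hp, if_false]
      have e5 : nxc t c j = c (j-1) := by simp only [nxc, hj, if_true]
      rw [e1, e2, e3, e4, e5]
      exact (hGn j hj).2
    · have hp : Even (j + 1 + (t:ℤ)) := by
        rw [Int.even_iff] at *; omega
      have e1 : HH U L (t+1) (j+1) = U (t+1) (j+1) := HH_up U L (t+1) (j+1) (hnp hp)
      have e2 : HH U L (t+1) j = HH U L t j := by simp only [HH, hj, if_false]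
      have e3 : nxA t A c (j+1) = Qv A c (j+1) := by simp only [nxA, hp, if_true]
      have e4 : nxA t A c j = A j := by simp only [nxA, hj, if_false]
      have e5 : nxc t c j = c (j+1) := by simp only [nxc, hj, if_false]
      rw [e1, e2, e3, e4, e5]
      have := (hGn (j+1) hp).1
      rwa [add_sub_cancel_right] at this

lemma GS_all (D : Data T R U L) {A0 : ℤ → ℂ × ℂ} {c0 : ℤ → ℂ} (S : GS 0 R (HH U L 0) A0 c0) (t : ℕ) (ht : t ≤ T) :
    GS t R (HH U L t) (sA A0 c0 t).1 (sA A0 c0 t).2 := by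
  induction t with
  | zero => exact S
  | succ t ih => exact step D (by omega) (ih (by omega))

theorem chain_final {n : ℕ} (hn : 3 ≤ n) (D : Data (2*n-5) R U L) {A0 : ℤ → ℂ × ℂ} {c0 : ℤ → ℂ}
    (S : GS 0 R (HH U L 0) A0 c0) {e0 : ℤ → Polynomial ℂ} (h : Inv 0 A0 c0 e0)
    (hb : Bnd 0 e0 (n-1) (n-2)) (hne : ∃ i, e0 i ≠ 0) (i j : ℤ)
    (hi : Even (i + ((2*n-5 : ℕ):ℤ))) (hj : Even (j + ((2*n-5 : ℕ):ℤ))) : R (2*n-5+1) i = R (2*n-5+1) j := by
  have hG := GS_all D S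
  have key := alg_main h hn hb hne (by
    intro t ht i hi
    have hS := hG t ht.le
    have nb := not_par_nb hi
    have r1 : R (t+1) (i-1) = R t (i-1) := D.h6 t ht _ nb.1
    have r2 : R (t+1) (i+1) = R t (i+1) := D.h6 t ht _ nb.2
    have h5 := D.h5 (t+1) ht (by omega) i (by rw [par_succ, not_not]; exact hi)
    rw [r1, r2] at h5
    exact brne h5 (hS.a _) (hS.a _)) (by
    intro i
    exact brne (D.h4 _ le_rfl i) ((hG _ le_rfl).a _) ((hG _ le_rfl).a _)) i j hi hj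
  by_contra hne
  exact brne hne (newpt D le_rfl (hG _ le_rfl) i hi) (newpt D le_rfl (hG _ le_rfl) j hj) key

end

end

end Pool.Agent.X98.CI
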