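import Pool.Agent.X98.CI.Start
namespace Pool.Agent.X98.CI
open Complex OnePoint
open scoped ComplexConjugate

/-- `X` is the other intersection point `μ_i(A)` of the circle through `A_{i-2}, A_{i-1}, A_i` and the circle through
`A_i, A_{i+1}, A_{i+2}` (`X = A_i` if the two circles are tangent at `A_i`). -/
def IsMu (A : ℤ → OnePoint ℂ) (i : ℤ) (X : OnePoint ℂ) : Prop :=
  ∃ Γ₁ Γ₂ : Set (OnePoint ℂ), Thru (A (i-2)) (A (i-1)) (A i) Γ₁ ∧ Thru (A i) (A (i+1)) (A (i+2)) Γ₂ ∧ Γ₁ ∩ Γ₂ = {A i, X}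

noncomputable section

def Cf (A : ℤ → OnePoint ℂ) (j : ℤ) : Herm := Kf (A (j-1)) (A j) (A (j+1))

lemma mu_C {A : ℤ → OnePoint ℂ} {i : ℤ} {X : OnePoint ℂ} (h : IsMu A i X) :
    Z (Cf A (i-1)) ∩ Z (Cf A (i+1)) = {A i, X} ∧ (A (i-2) ≠ A (i-1) ∧ A (i-2) ≠ A i ∧ A (i-1) ≠ A i) ∧
    (A i ≠ A (i+1) ∧ A i ≠ A (i+2) ∧ A (i+1) ≠ A (i+2)) ∧ ∃ Y, Y ∈ Z (Cf A (i-1)) ∧ Y ∉ Z (Cf A (i+1)) := by
  obtain ⟨Γ₁, Γ₂, h1, h2, h3⟩ := h
  have e1 : i - 1 - 1 = i - 2 := by ring
  have e2 : i - 1 + 1 = i := by ring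
  have e3 : i + 1 - 1 = i := by ring
  have e4 : i + 1 + 1 = i + 2 := by ring
  have z1 : Z (Cf A (i-1)) = Γ₁ := by rw [Cf, e1, e2]; exact (Z_eq h1).symm
  have z2 : Z (Cf A (i+1)) = Γ₂ := by rw [Cf, e3, e4]; exact (Z_eq h2).symm
  rw [z1, z2]
  refine ⟨h3, h1.2.2.2.2, h2.2.2.2.2, ?_⟩
  by_contra hcon
  push Not at hcon
  have hs : Γ₁ ⊆ Γ₂ := fun Y hY => hcon Y hY
  have h4 : Γ₁ = {A i, X} := by rw [← h3]; exact (Set.inter_eq_left.mpr hs).symm
  obtain ⟨_, p1, p2, p3, d1, d2, d3⟩ := h1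
  rw [h4] at p1 p2
  rcases p1 with p1 | p1
  · exact d2 p1
  · rcases p2 with p2 | p2
    · exact d3 p2
    · exact d1 (p1.trans p2.symm)

lemma Cf_spec {A : ℤ → OnePoint ℂ} {j : ℤ} (h1 : A (j-1) ≠ A j) (h2 : A (j-1) ≠ A (j+1)) (h3 : A j ≠ A (j+1)) :
    (Cf A j).nz ∧ A (j-1) ∈ Z (Cf A j) ∧ A j ∈ Z (Cf A j) ∧ A (j+1) ∈ Z (Cf A j) := Kf_spec h1 h2 h3

theorem core_nd {n : ℕ} (hn : 3 ≤ n) (P : ℕ → ℤ → OnePoint ℂ) (hper : ∀ i, P 0 (i + 2*n) = P 0 i) (O : OnePoint ℂ)
    (hO : ∀ j, ¬ Even j → P 0 j ≠ O)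
    (hH : ∀ i, Even i → IsMu (P 0) i O)
    (hs1 : ∀ s < 2*n-6, ∀ i, Even (i + ((s+1 : ℕ) : ℤ)) → IsMu (P s) i (P (s+1) i))
    (hs2 : ∀ s < 2*n-6, ∀ i, ¬ Even (i + ((s+1 : ℕ) : ℤ)) → P (s+1) i = P s i)
    (X : ℤ → OnePoint ℂ) (hX : ∀ i, Even (i + ((2*n-6+1 : ℕ) : ℤ)) → IsMu (P (2*n-6)) i (X i)) (i j : ℤ)
    (hi : Even (i + ((2*n-6+1 : ℕ) : ℤ))) (hj : Even (j + ((2*n-6+1 : ℕ) : ℤ))) : X i = X j := by
  classical
  let R : ℕ → ℤ → OnePoint ℂ := fun t => match t with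
    | 0 => fun j => if Even j then O else P 0 j
    | t+1 => if t = 2*n-5 then X else P t
  let U : ℕ → ℤ → Herm := fun t j => Cf (P (t-1)) j
  let L : ℤ → Herm := fun j => Kf (P 0 (j-1)) O (P 0 (j+1))
  have R0e : ∀ j, Even j → R 0 j = O := fun j h => by simp only [R, h, if_true]
  have R0o : ∀ j, ¬ Even j → R 0 j = P 0 j := fun j h => by simp only [R, h, if_false]
  have Rs : ∀ t, t < 2*n-5 → R (t+1) = P t := fun t h => by
    have : ¬ t = 2*n-5 := by omega
    simp only [R, this, if_false]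
  have RX : R (2*n-5+1) = X := by simp only [R, if_true]
  have hM : ∀ s, s ≤ 2*n-6 → ∀ i, Even (i + ((s+1 : ℕ) : ℤ)) → IsMu (P s) i (R (s+1+1) i) := by
    intro s hs i hi
    rcases Nat.lt_or_ge s (2*n-6) with h | h
    · rw [Rs (s+1) (by omega)]
      exact hs1 s h i hi
    · have e : s = 2*n-6 := by omega
      have e2 : s + 1 = 2*n-5 := by omega
      rw [e2, RX, e]
      rw [e] at hi
      exact hX i hi
  have evm : ∀ {j : ℤ} {t : ℕ}, ¬ Even (j + (t:ℤ)) → Even (j + 1 + (t:ℤ)) := by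
    intro j t h; rw [Int.even_iff] at *; omega
  have evn : ∀ {j : ℤ} {t : ℕ}, ¬ Even (j + (t:ℤ)) → Even (j - 1 + (t:ℤ)) := by
    intro j t h; rw [Int.even_iff] at *; omega
  -- distinctness of three consecutive points around an upper vertex
  have d0 : ∀ j, ¬ Even j → P 0 (j-1) ≠ P 0 j ∧ P 0 (j-1) ≠ P 0 (j+1) ∧ P 0 j ≠ P 0 (j+1) := by
    intro j hj
    have h := (mu_C (hH (j+1) (by rw [Int.even_add_one]; exact hj))).2.1
    have e1 : j + 1 - 2 = j - 1 := by ring
    have e2 : j + 1 - 1 = j := by ring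
    rwa [e1, e2] at h
  have ds : ∀ s, s ≤ 2*n-6 → ∀ j, ¬ Even (j + ((s+1:ℕ):ℤ)) → P s (j-1) ≠ P s j ∧ P s (j-1) ≠ P s (j+1) ∧ P s j ≠ P s (j+1) := by
    intro s hs j hj
    have h := (mu_C (hM s hs (j+1) (evm hj))).2.1
    have e1 : j + 1 - 2 = j - 1 := by ring
    have e2 : j + 1 - 1 = j := by ring
    rwa [e1, e2] at h
  have hD : Data (2*n-5) R U L := by
    refine ⟨?_, ?_, ?_, ?_, ?_, ?_, ?_, ?_⟩
    · intro t ht i hi
      cases t with
      | zero =>
        have hi' : Even i := by simpa using hi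
        have h := (mu_C (hH i hi')).1
        rw [R0e i hi', Rs 0 (by omega), Set.pair_comm]
        exact h
      | succ s =>
        rw [Rs s (by omega)]
        exact (mu_C (hM s (by omega) i hi)).1
    · intro t ht i hi
      cases t with
      | zero =>
        have hi' : Even i := by simpa using hi
        exact (mu_C (hH i hi')).2.2.2
      | succ s => exact (mu_C (hM s (by omega) i hi)).2.2.2
    · intro t ht j hj
      cases t with
      | zero =>
        have hj' : ¬ Even j := by simpa using hj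
        have hm : Even (j-1) := by rw [Int.even_iff] at *; omega
        have hp : Even (j+1) := by rw [Int.even_iff] at *; omega
        rw [R0e _ hm, R0e _ hp, R0o _ hj']
        have k1 := (mu_C (hH (j-1) hm)).1
        have k2 := (mu_C (hH (j+1) hp)).1
        rw [sub_add_cancel] at k1
        rw [add_sub_cancel_right] at k2
        have m1 : O ∈ Z (Cf (P 0) (j-1-1)) ∩ Z (Cf (P 0) j) := by rw [k1]; simp
        have m2 : O ∈ Z (Cf (P 0) j) ∩ Z (Cf (P 0) (j+1+1)) := by rw [k2]; simp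
        obtain ⟨q1, q2, q3⟩ := d0 j hj'
        exact ⟨m1.2, (Cf_spec q1 q2 q3).2.2.1, m2.1⟩
      | succ s =>
        rw [Rs s (by omega)]
        obtain ⟨q1, q2, q3⟩ := ds s (by omega) j hj
        exact (Cf_spec q1 q2 q3).2
    · intro t ht j
      cases t with
      | zero =>
        by_cases h : Even j
        · have h1 : ¬ Even (j+1) := by rw [Int.even_add_one, not_not]; exact h
          rw [R0e _ h, R0o _ h1]
          exact (hO _ h1).symm
        · have h1 : Even (j+1) := by rw [Int.even_add_one]; exact h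
          rw [R0e _ h1, R0o _ h]
          exact hO _ h
      | succ s =>
        rw [Rs s (by omega)]
        by_cases h : Even (j + ((s+1:ℕ):ℤ))
        · exact (mu_C (hM s (by omega) j h)).2.2.1.1
        · exact (ds s (by omega) j h).2.2
    · intro t ht ht1 j hj
      cases t with
      | zero => omega
      | succ s =>
        rw [Rs s (by omega)]
        exact (ds s (by omega) j hj).2.1
    · intro t ht j hj
      cases t with
      | zero =>
        have hj' : ¬ Even j := by simpa using hj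
        rw [Rs 0 (by omega), R0o _ hj']
      | succ s =>
        rw [Rs s (by omega), Rs (s+1) (by omega)]
        exact hs2 s (by omega) j hj
    · intro t ht j hj
      cases t with
      | zero =>
        have hj' : ¬ Even j := by simpa using hj
        obtain ⟨q1, q2, q3⟩ := d0 j hj'
        exact (Cf_spec q1 q2 q3).1
      | succ s =>
        obtain ⟨q1, q2, q3⟩ := ds s (by omega) j hj
        exact (Cf_spec q1 q2 q3).1
    · intro j hj
      have hm : ¬ Even (j-1) := by rw [Int.even_iff] at *; omega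
      have hp : ¬ Even (j+1) := by rw [Int.even_iff] at *; omega
      rw [R0e _ hj, R0o _ hm, R0o _ hp]
      have h0 := (ds 0 (by omega) j (by rw [Int.even_iff] at *; push_cast; omega)).2.1
      exact Kf_spec (hO _ hm) h0 (hO _ hp).symm
  have hb : ∀ j, (HH U L 0 j).nz ∧ R 0 (j-1) ∈ Z (HH U L 0 j) ∧ R 0 j ∈ Z (HH U L 0 j) ∧ R 0 (j+1) ∈ Z (HH U L 0 j) := by
    intro j
    by_cases h : Even j
    · have e : HH U L 0 j = L j := by simp only [HH, h, if_true]
      rw [e]; exact hD.l0 j h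
    · have e : HH U L 0 j = U 0 j := by simp only [HH, h, if_false]
      rw [e]
      have h' : ¬ Even (j + ((0:ℕ):ℤ)) := by simpa using h
      exact ⟨hD.nu 0 (by omega) j h', hD.h3 0 (by omega) j h'⟩
  have evp : ∀ j : ℤ, Even (j + 2*n) ↔ Even j := by
    intro j; rw [Int.even_iff, Int.even_iff]; omega
  have e1 : ∀ j : ℤ, j + 2*n - 1 = j - 1 + 2*n := fun j => by ring
  have e2 : ∀ j : ℤ, j + 2*n + 1 = j + 1 + 2*n := fun j => by ring
  obtain ⟨A0, c0, e0, ha, hc, hI, hB, hne⟩ := start hn O (R 0) (HH U L 0) R0e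
    (fun j h => by rw [R0o j h]; exact hO j h)
    (fun j => by simp only [R, evp, hper])
    (fun j => by simp only [HH, evp, U, L, Cf, e1, e2, hper])
    hb
  have h56 : 2*n-6+1 = 2*n-5 := by omega
  rw [h56] at hi hj
  have := chain_final hn hD ⟨ha, hb, hc⟩ hI hB hne i j hi hj
  rwa [RX] at this

end

end Pool.Agent.X98.CI
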