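import Pool.Agent.X98.CI.Core
namespace Pool.Agent.X98.CI
open Complex OnePoint
open scoped ComplexConjugate

lemma sameZ {F G : Herm} {P Q R : OnePoint ℂ} (hF : F.nz) (hG : G.nz) (h12 : P ≠ Q) (h13 : P ≠ R) (h23 : Q ≠ R)
    (f1 : P ∈ Z F) (f2 : Q ∈ Z F) (f3 : R ∈ Z F) (g1 : P ∈ Z G) (g2 : Q ∈ Z G) (g3 : R ∈ Z G) : Z F = Z G := by
  have a1 : br (rep P) (rep Q) ≠ 0 := by rwa [Ne, rep_br]
  have a2 : br (rep P) (rep R) ≠ 0 := by rwa [Ne, rep_br]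
  have a3 : br (rep R) (rep Q) ≠ 0 := by rw [Ne, rep_br]; exact h23.symm
  ext X
  exact ⟨fun hX => same hF hG a1 a2 a3 f1 f2 f3 g1 g2 g3 _ hX, fun hX => same hG hF a1 a2 a3 g1 g2 g3 f1 f2 f3 _ hX⟩

lemma fix1 (j : ℤ) : j + 1 + 1 = j + 2 := by ring
lemma fix2 (j : ℤ) : j + 1 - 1 = j := by ring
lemma fix3 (j : ℤ) : j + 2 - 1 = j + 1 := by ring
lemma fix4 (j : ℤ) : j + 2 + 1 = j + 3 := by ring
lemma fix5 (j : ℤ) : j + 2 - 2 = j := by ring
lemma fix6 (j : ℤ) : j + 2 + 2 = j + 4 := by ring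
lemma fix7 (j : ℤ) : j + 3 - 2 = j + 1 := by ring
lemma fix8 (j : ℤ) : j + 3 - 1 = j + 2 := by ring
lemma fix9 (j : ℤ) : j + 3 + 1 = j + 4 := by ring

variable {A : ℤ → OnePoint ℂ} {O : OnePoint ℂ}

lemma degR (hH : ∀ i, Even i → IsMu A i O) (hM : ∀ i, ¬ Even i → ∃ Y, IsMu A i Y) {j : ℤ} (hj : ¬ Even j) (hO : A j = O) :
    Z (Cf A (j+1)) = Z (Cf A (j+2)) ∧ A (j+3) ∈ Z (Cf A (j+2)) ∧ (∀ Y, IsMu A (j+2) Y → Y = A (j+3)) := by
  have e1 : Even (j+1) := by rw [Int.even_iff] at *; omega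
  have e3 : Even (j+3) := by rw [Int.even_iff] at *; omega
  have o2 : ¬ Even (j+2) := by rw [Int.even_iff] at *; omega
  have m1 := mu_C (hH _ e1)
  have m3 := mu_C (hH _ e3)
  obtain ⟨Y2, hY2⟩ := hM _ o2
  have m2 := mu_C hY2
  rw [fix1, fix2] at m1
  rw [fix7, fix8, fix9] at m3
  rw [fix3, fix4, fix5, fix6] at m2
  obtain ⟨q1, q2, q3⟩ := m2.2.1
  obtain ⟨r1, r2, r3⟩ := m3.2.1
  have c1 := Cf_spec (A := A) (j := j+1) (by rw [fix2]; exact q1) (by rw [fix2, fix1]; exact q2) (by rw [fix1]; exact q3)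
  have c2 := Cf_spec (A := A) (j := j+2) (by rw [fix3]; exact r1) (by rw [fix3, fix4]; exact r2) (by rw [fix4]; exact r3)
  rw [fix2, fix1] at c1
  rw [fix3, fix4] at c2
  have hOm : O ∈ Z (Cf A j) ∩ Z (Cf A (j+2)) := by rw [m1.1]; simp
  have hZ : Z (Cf A (j+1)) = Z (Cf A (j+2)) :=
    sameZ c1.1 c2.1 q1 q2 q3 c1.2.1 c1.2.2.1 c1.2.2.2 (by rw [hO]; exact hOm.2) c2.2.1 c2.2.2.1
  refine ⟨hZ, c2.2.2.2, ?_⟩
  intro Y hY
  have m := mu_C hY
  rw [fix3, fix4, fix5, fix6] at m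
  obtain ⟨s1, s2, s3⟩ := m.2.2.1
  have c3 := Cf_spec (A := A) (j := j+3) (by rw [fix8]; exact s1) (by rw [fix8, fix9]; exact s2) (by rw [fix9]; exact s3)
  have h1 : A (j+3) ∈ Z (Cf A (j+1)) ∩ Z (Cf A (j+3)) := ⟨by rw [hZ]; exact c2.2.2.2, c3.2.2.1⟩
  rw [m.1] at h1
  rcases h1 with h1 | h1
  · exact absurd h1.symm s1
  · exact h1.symm

/-- reflection of the index -/
lemma IsMu_neg {i : ℤ} {X : OnePoint ℂ} (h : IsMu A i X) : IsMu (fun k => A (-k)) (-i) X := by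
  obtain ⟨Γ₁, Γ₂, h1, h2, h3⟩ := h
  have e1 : - (-i - 2) = i + 2 := by ring
  have e2 : - (-i - 1) = i + 1 := by ring
  have e3 : - (-i + 1) = i - 1 := by ring
  have e4 : - (-i + 2) = i - 2 := by ring
  refine ⟨Γ₂, Γ₁, ?_, ?_, ?_⟩
  · simp only [e1, e2, neg_neg]
    obtain ⟨a, b, c, d, e, f, g⟩ := h2
    exact ⟨a, d, c, b, g.symm, f.symm, e.symm⟩
  · simp only [e3, e4, neg_neg]
    obtain ⟨a, b, c, d, e, f, g⟩ := h1
    exact ⟨a, d, c, b, g.symm, f.symm, e.symm⟩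
  · simp only [neg_neg]
    rw [Set.inter_comm]; exact h3

/-- the case of a hexagon with a vertex at `O` -/
lemma hexdeg (hper : ∀ i, A (i + 6) = A i) (hH : ∀ i, Even i → IsMu A i O) (X : ℤ → OnePoint ℂ)
    (hX : ∀ i, ¬ Even i → IsMu A i (X i)) {j : ℤ} (hj : ¬ Even j) (hO : A j = O) :
    X j = A (j+3) ∧ X (j+2) = A (j+3) ∧ X (j-2) = A (j+3) := by
  have hM : ∀ i, ¬ Even i → ∃ Y, IsMu A i Y := fun i hi => ⟨X i, hX i hi⟩
  have dR := degR hH hM hj hO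
  have o2 : ¬ Even (j+2) := by rw [Int.even_iff] at *; omega
  have om2 : ¬ Even (j-2) := by rw [Int.even_iff] at *; omega
  -- reflected polygon
  have hH' : ∀ i, Even i → IsMu (fun k => A (-k)) i O := by
    intro i hi
    have := IsMu_neg (hH (-i) (by rwa [even_neg]))
    rwa [neg_neg] at this
  have hM' : ∀ i, ¬ Even i → ∃ Y, IsMu (fun k => A (-k)) i Y := by
    intro i hi
    have := IsMu_neg (hX (-i) (by rwa [even_neg]))
    rw [neg_neg] at this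
    exact ⟨_, this⟩
  have dL := degR hH' hM' (j := -j) (by rwa [even_neg]) (by simpa using hO)
  have hm3 : A (j-3) = A (j+3) := by rw [← hper (j-3)]; congr 1; ring
  have x2 : X (j+2) = A (j+3) := dR.2.2 _ (hX _ o2)
  have xm2 : X (j-2) = A (j+3) := by
    have h1 := IsMu_neg (hX _ om2)
    have e : -(j-2) = -j+2 := by ring
    rw [e] at h1
    have h2 := dL.2.2 _ h1
    rw [h2, ← hm3]
    congr 1; ring
  refine ⟨?_, x2, xm2⟩
  have m := mu_C (hX j hj)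
  have e1 : Even (j-1) := by rw [Int.even_iff] at *; omega
  -- left circle: Z (Cf A (j-1)) = Z (Cf A (j-2))
  have hsw : ∀ i, Even i ∨ ¬ Even i → (A (i-1) ≠ A i ∧ A (i-1) ≠ A (i+1) ∧ A i ≠ A (i+1)) := by
    intro i _
    by_cases h : Even (i+1)
    · have h2 := (mu_C (hH _ h)).2.1
      have f1 : i + 1 - 2 = i - 1 := by ring
      rwa [f1, fix2] at h2
    · have h2 := (mu_C (hX _ h)).2.1
      have f1 : i + 1 - 2 = i - 1 := by ring
      rwa [f1, fix2] at h2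
  have cs : ∀ i, (Cf A i).nz ∧ A (i-1) ∈ Z (Cf A i) ∧ A i ∈ Z (Cf A i) ∧ A (i+1) ∈ Z (Cf A i) := fun i =>
    Cf_spec (hsw i (em _)).1 (hsw i (em _)).2.1 (hsw i (em _)).2.2
  have m1 := (mu_C (hH _ e1)).1
  rw [sub_add_cancel] at m1
  have f2 : j - 1 - 1 = j - 2 := by ring
  rw [f2] at m1
  have hOm : O ∈ Z (Cf A (j-2)) ∩ Z (Cf A j) := by rw [m1]; simp
  have c1 := cs (j-1)
  have c2 := cs (j-2)
  rw [f2, sub_add_cancel] at c1
  have f3 : j - 2 - 1 = j - 3 := by ring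
  have f4 : j - 2 + 1 = j - 1 := by ring
  rw [f3, f4] at c2
  have dist := hsw (j-1) (em _)
  rw [f2, sub_add_cancel] at dist
  have hZ : Z (Cf A (j-1)) = Z (Cf A (j-2)) :=
    sameZ c1.1 c2.1 dist.1 dist.2.1 dist.2.2 c1.2.1 c1.2.2.1 c1.2.2.2 c2.2.2.1 c2.2.2.2 (by rw [hO]; exact hOm.1)
  have h1 : A (j+3) ∈ Z (Cf A (j-1)) ∩ Z (Cf A (j+1)) := by
    refine ⟨?_, by rw [dR.1]; exact dR.2.1⟩
    rw [hZ, ← hm3]
    exact c2.2.1
  rw [m.1] at h1
  rcases h1 with h1 | h1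
  · -- A (j+3) = A j = O
    have e3 : Even (j+3) := by rw [Int.even_iff] at *; omega
    have m3 := (mu_C (hH _ e3)).1
    rw [fix8, fix9] at m3
    have f5 : Cf A (j+4) = Cf A (j-2) := by
      have g1 : j + 4 - 1 = j - 3 + 6 := by ring
      have g2 : j + 4 = j - 2 + 6 := by ring
      have g3 : j + 4 + 1 = j - 1 + 6 := by ring
      unfold Cf
      rw [g1, g3, g2, hper, hper, hper, f3, f4]
    have hXm : X j ∈ Z (Cf A (j-1)) ∩ Z (Cf A (j+1)) := by rw [m.1]; simp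
    have hXm2 : X j ∈ Z (Cf A (j+2)) ∩ Z (Cf A (j+4)) := by
      rw [f5, ← hZ, ← dR.1]; exact ⟨hXm.2, hXm.1⟩
    rw [m3] at hXm2
    rcases hXm2 with h2 | h2
    · exact h2
    · rw [Set.mem_singleton_iff] at h2
      rw [h2, h1, hO]
  · exact h1.symm

theorem core_deg {n : ℕ} (hn : 3 ≤ n) (P : ℕ → ℤ → OnePoint ℂ) (hper : ∀ i, P 0 (i + 2*n) = P 0 i) (O : OnePoint ℂ)
    (hH : ∀ i, Even i → IsMu (P 0) i O)
    (hs1 : ∀ s < 2*n-6, ∀ i, Even (i + ((s+1 : ℕ) : ℤ)) → IsMu (P s) i (P (s+1) i))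
    (hs2 : ∀ s < 2*n-6, ∀ i, ¬ Even (i + ((s+1 : ℕ) : ℤ)) → P (s+1) i = P s i)
    (X : ℤ → OnePoint ℂ) (hX : ∀ i, Even (i + ((2*n-6+1 : ℕ) : ℤ)) → IsMu (P (2*n-6)) i (X i))
    (j0 : ℤ) (hj0 : ¬ Even j0) (hO : P 0 j0 = O) (i j : ℤ)
    (hi : Even (i + ((2*n-6+1 : ℕ) : ℤ))) (hj : Even (j + ((2*n-6+1 : ℕ) : ℤ))) : X i = X j := by
  rcases Nat.lt_or_ge 3 n with h4 | h4
  · -- n ≥ 4: contradiction
    exfalso
    have hM : ∀ i, ¬ Even i → ∃ Y, IsMu (P 0) i Y := by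
      intro i hi
      exact ⟨_, hs1 0 (by omega) i (by rw [Int.even_iff] at *; push_cast; omega)⟩
    have d := degR hH hM hj0 hO
    have k1 := d.2.2 _ (hs1 0 (by omega) (j0+2) (by rw [Int.even_iff] at *; push_cast; omega))
    have k2 := hs2 0 (by omega) (j0+3) (by rw [Int.even_iff] at *; push_cast; omega)
    have k3 := (mu_C (hs1 1 (by omega) (j0+3) (by rw [Int.even_iff] at *; push_cast; omega))).2.1.2.2
    rw [fix8] at k3
    apply k3
    show P (0+1) (j0+2) = P (0+1) (j0+3)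
    rw [k1, k2]
  · have h3 : n = 3 := by omega
    subst h3
    have hper' : ∀ i, P 0 (i + 6) = P 0 i := by
      intro i; have := hper i; push_cast at this; rw [← this]
    have hX' : ∀ i, ¬ Even i → IsMu (P 0) i (X i) := by
      intro i hi
      exact hX i (by rw [Int.even_iff] at *; push_cast; omega)
    have hP6 : ∀ (q m : ℤ), P 0 (m + 6*q) = P 0 m := by
      intro q m
      have hp : Function.Periodic (P 0) 6 := hper'
      have := hp.int_mul q m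
      rw [← this]; congr 1; simp; ring
    have key : ∀ i, ¬ Even i → X i = P 0 (j0+3) := by
      intro i hi
      have hcase : ∃ q : ℤ, i = j0 + 6*q ∨ i = j0 + 6*q + 2 ∨ i = j0 + 6*q - 2 := by
        rw [Int.even_iff] at hi hj0
        rcases (by omega : (i - j0) % 6 = 0 ∨ (i - j0) % 6 = 2 ∨ (i - j0) % 6 = 4) with h | h | h
        · exact ⟨(i-j0)/6, Or.inl (by omega)⟩
        · exact ⟨(i-j0)/6, Or.inr (Or.inl (by omega))⟩
        · exact ⟨(i-j0)/6 + 1, Or.inr (Or.inr (by omega))⟩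
      obtain ⟨q, hq⟩ := hcase
      have ho : ¬ Even (j0 + 6*q) := by rw [Int.even_iff] at *; omega
      have h := hexdeg hper' hH X hX' ho (by rw [hP6]; exact hO)
      have e : P 0 (j0 + 6*q + 3) = P 0 (j0+3) := by
        have : j0 + 6*q + 3 = j0 + 3 + 6*q := by ring
        rw [this, hP6]
      rw [e] at h
      rcases hq with rfl | rfl | rfl
      · exact h.1
      · exact h.2.1
      · exact h.2.2
    rw [key i (by rw [Int.even_iff] at *; push_cast at hi; omega), key j (by rw [Int.even_iff] at *; push_cast at hj; omega)]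

end Pool.Agent.X98.CI
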