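import Pool.Agent.X98.CI.Alg
namespace Pool.Agent.X98.CI
open Complex OnePoint
open scoped ComplexConjugate

/-- A circle on the Riemann sphere: a Euclidean circle, or a line together with `∞`. -/
def IsCircle (Γ : Set (OnePoint ℂ)) : Prop :=
  (∃ (m : ℂ) (r : ℝ), 0 < r ∧ Γ = (fun z : ℂ => (z : OnePoint ℂ)) '' {z | ‖z - m‖ = r}) ∨
  (∃ (v : ℂ) (δ : ℝ), v ≠ 0 ∧ Γ = insert ∞ ((fun z : ℂ => (z : OnePoint ℂ)) '' {z | (v * z).re = δ}))

structure Herm where
  a : ℝ
  b : ℂ
  c : ℝ

def Herm.f (H : Herm) (u v : ℂ × ℂ) : ℂ :=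
  H.a * conj u.1 * v.1 + H.b * conj u.1 * v.2 + conj H.b * conj u.2 * v.1 + H.c * conj u.2 * v.2

def Herm.nz (H : Herm) : Prop := ¬ (H.a = 0 ∧ H.b = 0 ∧ H.c = 0)

noncomputable def rep (X : OnePoint ℂ) : ℂ × ℂ := Option.elim X (1, 0) (fun z => (z, 1))

@[simp] lemma rep_inf : rep ∞ = (1, 0) := rfl
@[simp] lemma rep_coe (z : ℂ) : rep (z : OnePoint ℂ) = (z, 1) := rfl

lemma rep_ne (X : OnePoint ℂ) : rep X ≠ 0 := by
  induction X using OnePoint.rec with
  | infty => simp
  | coe z => simp

lemma rep_br {X Y : OnePoint ℂ} : br (rep X) (rep Y) = 0 ↔ X = Y := by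
  induction X using OnePoint.rec with
  | infty =>
    induction Y using OnePoint.rec with
    | infty => simp [br]
    | coe z => simp [br]
  | coe w =>
    induction Y using OnePoint.rec with
    | infty => simp [br]
    | coe z => simp [br, sub_eq_zero]

def Z (H : Herm) : Set (OnePoint ℂ) := {X | H.f (rep X) (rep X) = 0}

lemma circle_herm {Γ : Set (OnePoint ℂ)} (h : IsCircle Γ) : ∃ H : Herm, H.nz ∧ Γ = Z H := by
  rcases h with ⟨m, r, hr, rfl⟩ | ⟨v, δ, hv, rfl⟩
  · refine ⟨⟨1, -m, normSq m - r^2⟩, fun h => by simp at h, ?_⟩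
    ext X
    induction X using OnePoint.rec with
    | infty => simp [Z, Herm.f]
    | coe z =>
      simp only [Set.mem_image, Set.mem_ofPred_eq, Z, Herm.f, rep_coe]
      have h1 : (((‖z - m‖^2 : ℝ)) : ℂ) = (z - m) * conj (z - m) := by
        rw [mul_conj, normSq_eq_norm_sq]
      have h2 : ((normSq m : ℝ) : ℂ) = m * conj m := by rw [mul_conj]
      have key : ((‖z - m‖^2 : ℝ) : ℂ) - (r:ℂ)^2 = ((1:ℝ):ℂ) * conj z * z + -m * conj z * 1 + conj (-m) * conj 1 * z + ((normSq m - r^2 : ℝ):ℂ) * conj 1 * 1 := by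
        rw [h1]; push_cast; rw [h2]; simp; ring
      rw [← key]
      constructor
      · rintro ⟨w, hw, hwz⟩
        have : w = z := by simpa using hwz
        subst this
        rw [hw]; push_cast; ring
      · intro h
        refine ⟨z, ?_, rfl⟩
        have h3 : (((‖z - m‖^2 - r^2 : ℝ)) : ℂ) = 0 := by push_cast; push_cast at h; exact h
        have h4 : ‖z - m‖^2 - r^2 = 0 := by exact_mod_cast h3
        have h5 : ‖z - m‖^2 = r^2 := by linarith
        exact (sq_eq_sq₀ (norm_nonneg _) hr.le).mp h5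
  · refine ⟨⟨0, conj v, -2*δ⟩, fun h => hv (by simpa using h.2.1), ?_⟩
    ext X
    induction X using OnePoint.rec with
    | infty => simp [Z, Herm.f]
    | coe z =>
      simp only [Set.mem_insert_iff, Set.mem_image, Set.mem_ofPred_eq, Z, Herm.f, rep_coe]
      have h1 : ((2 * (v*z).re : ℝ) : ℂ) = v * z + conj (v * z) := by
        rw [add_conj]
      have key : ((2 * (v*z).re : ℝ) : ℂ) - 2 * δ = ((0:ℝ):ℂ) * conj z * z + conj v * conj z * 1 + conj (conj v) * conj 1 * z + ((-2*δ : ℝ):ℂ) * conj 1 * 1 := by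
        rw [h1]; push_cast; simp; ring
      rw [← key]
      constructor
      · rintro (h | ⟨w, hw, hwz⟩)
        · simp at h
        · have : w = z := by simpa using hwz
          subst this
          rw [hw]; push_cast; ring
      · intro h
        right
        refine ⟨z, ?_, rfl⟩
        have h3 : (((2 * (v*z).re - 2 * δ : ℝ)) : ℂ) = 0 := by push_cast; push_cast at h; exact h
        have h4 : 2 * (v*z).re - 2 * δ = 0 := by exact_mod_cast h3
        linarith

lemma f_conj (H : Herm) (u v : ℂ × ℂ) : conj (H.f u v) = H.f v u := by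
  simp only [Herm.f, map_add, map_mul, conj_conj, conj_ofReal]; ring

lemma expand (H : Herm) (u v X : ℂ × ℂ) :
    conj (br u v) * br u v * H.f X X = conj (br X v) * br X v * H.f u u + conj (br X v) * br u X * H.f u v
      + br X v * conj (br u X) * conj (H.f u v) + conj (br u X) * br u X * H.f v v := by
  simp only [Herm.f, br, map_add, map_sub, map_mul, conj_conj, conj_ofReal]
  ring

lemma f_ne {H : Herm} (hH : H.nz) {u v : ℂ × ℂ} (huv : br u v ≠ 0) (hu : H.f u u = 0) (hv : H.f v v = 0) :
    H.f u v ≠ 0 := by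
  intro h
  have h' : conj (H.f u v) = 0 := by rw [h]; simp
  have hb : conj (br u v) ≠ 0 := by simpa using huv
  have hX : ∀ X, H.f X X = 0 := by
    intro X
    have := expand H u v X
    rw [hu, hv, h, map_zero] at this
    have h2 : conj (br u v) * br u v ≠ 0 := mul_ne_zero hb huv
    apply (mul_eq_zero.mp (by rw [this]; ring : conj (br u v) * br u v * H.f X X = 0)).resolve_left h2
  apply hH
  have e1 := hX (1, 0)
  have e2 := hX (0, 1)
  have e3 := hX (1, 1)
  have e4 := hX (Complex.I, 1)
  simp only [Herm.f, map_one, map_zero, mul_one, mul_zero, add_zero, zero_add, conj_I] at e1 e2 e3 e4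
  have ha : H.a = 0 := by exact_mod_cast e1
  have hc : H.c = 0 := by exact_mod_cast e2
  refine ⟨ha, ?_, hc⟩
  rw [ha, hc] at e3 e4
  simp only [ofReal_zero, zero_mul, zero_add, add_zero] at e3 e4
  have hI : Complex.I * Complex.I = -1 := I_mul_I
  have : H.b * 2 = 0 := by linear_combination e3 + Complex.I * e4 + (H.b - conj H.b) * hI
  simpa using this

lemma f_smul (H : Herm) (τ : ℂ) (u : ℂ × ℂ) : H.f (τ • u) (τ • u) = conj τ * τ * H.f u u := by
  simp only [Herm.f, Prod.smul_fst, Prod.smul_snd, smul_eq_mul, map_mul]; ring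

/-- two nonzero forms vanishing at three distinct points have the same zero set -/
lemma same {F G : Herm} (hF : F.nz) (hG : G.nz) {u v w : ℂ × ℂ} (huv : br u v ≠ 0) (huw : br u w ≠ 0) (hvw : br w v ≠ 0)
    (f1 : F.f u u = 0) (f2 : F.f v v = 0) (f3 : F.f w w = 0)
    (g1 : G.f u u = 0) (g2 : G.f v v = 0) (g3 : G.f w w = 0) (X : ℂ × ℂ) (hX : F.f X X = 0) : G.f X X = 0 := by
  have hm := f_ne hF huv f1 f2
  have hl := f_ne hG huv g1 g2
  have eF := expand F u v w
  have eG := expand G u v w
  have eX := expand F u v X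
  have eY := expand G u v X
  rw [f1, f2, f3] at eF
  rw [g1, g2, g3] at eG
  rw [f1, f2, hX] at eX
  rw [g1, g2] at eY
  set m := F.f u v
  set l := G.f u v
  set x := br w v
  set y := br u w
  have hx' : conj x ≠ 0 := by simpa using hvw
  have hy' : conj y ≠ 0 := by simpa using huw
  -- m conj l = l conj m
  have hml : m * conj l = l * conj m := by
    have : (conj x * y) * (m * conj l - l * conj m) = 0 := by
      linear_combination (-conj l) * eF + (conj m) * eG
    have := (mul_eq_zero.mp this).resolve_left (mul_ne_zero hx' huw)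
    linear_combination this
  have h0 : m * (conj (br X v) * br u X * l + br X v * conj (br u X) * conj l) = 0 := by
    linear_combination (-l) * eX + br X v * conj (br u X) * hml
  have h1 := (mul_eq_zero.mp h0).resolve_left hm
  have hb : conj (br u v) ≠ 0 := by simpa using huv
  have h2 : conj (br u v) * br u v * G.f X X = 0 := by
    linear_combination eY + h1
  exact (mul_eq_zero.mp h2).resolve_left (mul_ne_zero hb huv)

end Pool.Agent.X98.CI
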