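import Mathlib
namespace Pool.Agent.X98.CI
open Polynomial

noncomputable section

variable {K : Type*} [Field K] {n : ℕ}

def EE (α β d : ZMod n → K) : (degreeLT K (n-1) × (ZMod n → degreeLT K (n-2))) →ₗ[K] (ZMod n → K[X]) where
  toFun v := fun k => (1 - X * C (α k)) * (v.2 k : K[X]) - (1 - X * C (β (k-1))) * (v.2 (k-1) : K[X]) - C (d k) * (v.1 : K[X])
  map_add' u v := by
    funext k
    simp only [Prod.fst_add, Prod.snd_add, Pi.add_apply, Submodule.coe_add]
    ring
  map_smul' a v := by
    funext k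
    simp only [Prod.smul_fst, Prod.smul_snd, Pi.smul_apply, Submodule.coe_smul, RingHom.id_apply, smul_eq_C_mul]
    ring

lemma deg_aux {m : ℕ} {p : K[X]} (hp : p ∈ degreeLT K m) (a : K) : ∀ j, m + 1 ≤ j → ((1 - X * C a) * p).coeff j = 0 := by
  intro j hj
  rw [mem_degreeLT] at hp
  have h1 : ∀ i, m ≤ i → p.coeff i = 0 := fun i hi => coeff_eq_zero_of_degree_lt (lt_of_lt_of_le hp (by exact_mod_cast hi))
  have e : (1 - X * C a) * p = p - X * (C a * p) := by ring
  rw [e, coeff_sub]
  obtain ⟨i, rfl⟩ : ∃ i, j = i + 1 := ⟨j - 1, by omega⟩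
  rw [coeff_X_mul, coeff_C_mul, h1 _ (by omega), h1 _ (by omega)]
  simp

lemma EE_deg (hn : 3 ≤ n) (α β d : ZMod n → K) (v) (k : ZMod n) : ∀ j, n - 1 ≤ j → (EE α β d v k).coeff j = 0 := by
  intro j hj
  simp only [EE, LinearMap.coe_mk, AddHom.coe_mk, coeff_sub]
  rw [deg_aux (v.2 k).2 _ j (by omega), deg_aux (v.2 (k-1)).2 _ j (by omega), coeff_C_mul]
  have h3 := v.1.2
  rw [mem_degreeLT] at h3
  rw [coeff_eq_zero_of_degree_lt (lt_of_lt_of_le h3 (by exact_mod_cast hj))]
  simp

def Phi (α β d : ZMod n → K) : (degreeLT K (n-1) × (ZMod n → degreeLT K (n-2))) →ₗ[K] (ZMod n → Fin (n-1) → K) where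
  toFun v := fun k j => (EE α β d v k).coeff j
  map_add' u v := by
    funext k j; rw [map_add]; simp
  map_smul' a v := by
    funext k j; rw [map_smul]; simp

def LL [NeZero n] (w : ZMod n → K) (z : Fin (n-1)) : (ZMod n → Fin (n-1) → K) →ₗ[K] K × K where
  toFun g := (∑ k, g k z, ∑ k, w k * ∑ j, g k j)
  map_add' u v := by
    ext
    · simp [Finset.sum_add_distrib]
    · simp [Finset.sum_add_distrib, mul_add]
  map_smul' a v := by
    ext
    · simp [Finset.mul_sum]
    · simp only [Pi.smul_apply, smul_eq_mul, RingHom.id_apply, Prod.smul_snd, ← Finset.mul_sum]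
      rw [Finset.mul_sum]
      apply Finset.sum_congr rfl; intro k _; ring

lemma num_aux (n q : ℕ) (hn : 3 ≤ n) (f1 : n - 1 + n * (n - 2) ≤ q) (f2 : 1 + 1 + q = n * (n - 1)) : False := by
  obtain ⟨m, rfl⟩ : ∃ m, n = m + 3 := ⟨n - 3, by omega⟩
  have e1 : m + 3 - 1 = m + 2 := by omega
  have e2 : m + 3 - 2 = m + 1 := by omega
  rw [e1] at f1 f2
  rw [e2] at f1
  nlinarith

theorem init_sol [NeZero n] (hn : 3 ≤ n) (α β d w : ZMod n → K) (hw : ∀ k, w k ≠ 0)
    (h1 : ∀ k, w k * (1 - α k) = w (k+1) * (1 - β k)) (h0 : ∑ k, d k = 0) (hs : ∑ k, w k * d k = 0) :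
    ∃ (ε : K[X]) (e : ZMod n → K[X]),
      (∀ k, (1 - X * C (α k)) * e k - (1 - X * C (β (k-1))) * e (k-1) = C (d k) * ε) ∧
      (∀ j, n - 1 ≤ j → ε.coeff j = 0) ∧ (∀ k j, n - 2 ≤ j → (e k).coeff j = 0) ∧ (ε ≠ 0 ∨ ∃ k, e k ≠ 0) := by
  classical
  have hz0 : 0 < n - 1 := by omega
  have hz1 : 1 < n - 1 := by omega
  set z : Fin (n-1) := ⟨0, hz0⟩
  set o : Fin (n-1) := ⟨1, hz1⟩
  have hsum : ∀ (f : ZMod n → K), ∑ k, f (k-1) = ∑ k, f k := fun f =>
    Fintype.sum_equiv (Equiv.subRight (1 : ZMod n)) _ _ (fun _ => rfl)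
  have hsum' : ∀ (f : ZMod n → K), ∑ k, f (k+1) = ∑ k, f k := fun f =>
    Fintype.sum_equiv (Equiv.addRight (1 : ZMod n)) _ _ (fun _ => rfl)
  have hev : ∀ v k (x : K), (EE α β d v k).eval x = ∑ j : Fin (n-1), (EE α β d v k).coeff j * x ^ (j:ℕ) := by
    intro v k x
    rw [Fin.sum_univ_eq_sum_range (fun j => (EE α β d v k).coeff j * x ^ j) (n-1)]
    apply eval_eq_sum_range'
    by_cases hp : EE α β d v k = 0
    · rw [hp, natDegree_zero]; omega
    · rw [natDegree_lt_iff_degree_lt hp, degree_lt_iff_coeff_zero]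
      exact EE_deg hn α β d v k
  have hexp : ∀ v k (x : K), (EE α β d v k).eval x = (1 - x * α k) * (v.2 k : K[X]).eval x
      - (1 - x * β (k-1)) * (v.2 (k-1) : K[X]).eval x - d k * (v.1 : K[X]).eval x := by
    intro v k x
    simp [EE]
    ring
  have hker : ∀ v, LL w z (Phi α β d v) = 0 := by
    intro v
    have c1 : ∑ k, (EE α β d v k).coeff 0 = 0 := by
      have : ∀ k, (EE α β d v k).coeff 0 = (v.2 k : K[X]).eval 0 - (v.2 (k-1) : K[X]).eval 0 - d k * (v.1 : K[X]).eval 0 := by
        intro k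
        rw [coeff_zero_eq_eval_zero, hexp]; ring
      simp only [this, Finset.sum_sub_distrib]
      rw [hsum (fun k => (v.2 k : K[X]).eval 0), ← Finset.sum_mul, h0]
      ring
    have c2 : ∑ k, w k * ∑ j : Fin (n-1), (EE α β d v k).coeff j = 0 := by
      have h3 : ∀ k, ∑ j : Fin (n-1), (EE α β d v k).coeff j = (1 - α k) * (v.2 k : K[X]).eval 1
          - (1 - β (k-1)) * (v.2 (k-1) : K[X]).eval 1 - d k * (v.1 : K[X]).eval 1 := by
        intro k
        have h4 := hev v k 1
        simp only [one_pow, mul_one] at h4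
        rw [← h4, hexp]; ring
      have h5 : ∀ k, w k * ∑ j : Fin (n-1), (EE α β d v k).coeff j = w k * (1 - α k) * (v.2 k : K[X]).eval 1
          - (w k * (1 - β (k-1)) * (v.2 (k-1) : K[X]).eval 1) - w k * d k * (v.1 : K[X]).eval 1 := by
        intro k; rw [h3]; ring
      simp only [h5, Finset.sum_sub_distrib]
      have h6 : ∑ k, w k * (1 - β (k-1)) * (v.2 (k-1) : K[X]).eval 1 = ∑ k, w (k+1) * (1 - β k) * (v.2 k : K[X]).eval 1 := by
        rw [← hsum (fun k => w (k+1) * (1 - β k) * (v.2 k : K[X]).eval 1)]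
        apply Finset.sum_congr rfl; intro k _; simp
      rw [h6, ← Finset.sum_mul, hs]
      simp only [h1, sub_self, zero_mul]
    exact Prod.ext c1 c2
  have hsurj : LinearMap.range (LL w z) = ⊤ := by
    rw [LinearMap.range_eq_top]
    intro y
    refine ⟨fun k j => if k = 0 then (if j = z then y.1 else if j = o then ((w 0)⁻¹ * y.2 - y.1) else 0) else 0, ?_⟩
    have hzo : o ≠ z := by simp [z, o]
    ext
    · simp [LL]
    · simp only [LL, LinearMap.coe_mk, AddHom.coe_mk]
      rw [Finset.sum_eq_single 0]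
      · simp only [if_true]
        rw [Finset.sum_eq_add z o (Ne.symm hzo)]
        · simp only [if_true, hzo, if_false]
          have := hw 0
          field_simp
          ring
        · intro j _ hj; simp [hj.1, hj.2]
        · intro h; exact absurd (Finset.mem_univ _) h
        · intro h; exact absurd (Finset.mem_univ _) h
      · intro k _ hk; simp [hk]
      · intro h; exact absurd (Finset.mem_univ _) h
  have : ∀ m, FiniteDimensional K (degreeLT K m) := fun m =>
    Module.Finite.of_injective (degreeLTEquiv K m).toLinearMap (degreeLTEquiv K m).injective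
  have hfr : ∀ m, Module.finrank K (degreeLT K m) = m := fun m => by
    rw [(degreeLTEquiv K m).finrank_eq]; simp
  have hninj : ¬ Function.Injective (Phi α β d) := by
    intro hinj
    let Ψ : (degreeLT K (n-1) × (ZMod n → degreeLT K (n-2))) →ₗ[K] LinearMap.ker (LL w z) :=
      LinearMap.codRestrict _ (Phi α β d) (fun v => by rw [LinearMap.mem_ker]; exact hker v)
    have hΨ : Function.Injective Ψ := by
      intro a b hab
      apply hinj
      exact congrArg Subtype.val hab
    have f1 := LinearMap.finrank_le_finrank_of_injective hΨ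
    have f2 := LinearMap.finrank_range_add_finrank_ker (LL w z)
    rw [hsurj, finrank_top, Module.finrank_prod, Module.finrank_self, Module.finrank_pi_fintype] at f2
    rw [Module.finrank_prod, Module.finrank_pi_fintype] at f1
    simp only [hfr, Module.finrank_fintype_fun_eq_card, Fintype.card_fin, Finset.sum_const, Finset.card_univ, ZMod.card,
      smul_eq_mul] at f1 f2
    exact num_aux n _ hn f1 f2
  rw [← LinearMap.ker_eq_bot, Submodule.eq_bot_iff] at hninj
  push Not at hninj
  obtain ⟨v, hv, hv0⟩ := hninj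
  rw [LinearMap.mem_ker] at hv
  refine ⟨v.1, fun k => v.2 k, ?_, ?_, ?_, ?_⟩
  · intro k
    have : EE α β d v k = 0 := by
      ext j
      by_cases hj : j < n - 1
      · have := congrFun (congrFun hv k) ⟨j, hj⟩
        simpa [Phi] using this
      · rw [EE_deg hn α β d v k j (by omega)]; simp
    simp only [EE, LinearMap.coe_mk, AddHom.coe_mk] at this
    linear_combination this
  · have := v.1.2
    rw [mem_degreeLT, degree_lt_iff_coeff_zero] at this
    exact this
  · intro k
    have := (v.2 k).2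
    rw [mem_degreeLT, degree_lt_iff_coeff_zero] at this
    exact this
  · by_contra hcon
    push Not at hcon
    apply hv0
    apply Prod.ext
    · exact Subtype.ext hcon.1
    · funext k; exact Subtype.ext (hcon.2 k)

end

end Pool.Agent.X98.CI
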