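import Pool.Agent.X98.CI.Geo
namespace Pool.Agent.X98.CI
open Complex OnePoint
open scoped ComplexConjugate

section pure
variable {F : Type*} [Field F]

lemma alg_ll2 (γ γ' s sb s' s'b d db m mb l lb ρ ρb π πb π' π'b : F) (hm : m ≠ 0) (hl : l ≠ 0) (hρb : ρb ≠ 0) (hdb : db ≠ 0)
    (a1 : (1-γ')*s'*db*mb = -(m*s'b*d)) (a2 : (1-γ)*l*db*s = -(sb*d*lb))
    (e1 : ρb*π*m + ρ*πb*mb = 0) (e2 : π'b*ρ*l + π'*ρb*lb = 0)
    (P : d*ρ + s'*π + s*π' = 0) (Pb : db*ρb + s'b*πb + sb*π'b = 0) : γ*s*π' + γ'*s'*π = 0 := by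
  have E1 : (1-γ')*ρb*db*π*s' = ρ*d*πb*s'b := by
    apply mul_left_cancel₀ hm
    linear_combination ((1-γ')*s'*db)*e1 + (-ρ*πb)*a1
  have E2 : (1-γ)*ρb*db*π'*s = ρ*d*π'b*sb := by
    apply mul_left_cancel₀ hl
    linear_combination (ρb*π')*a2 + (-d*sb)*e2
  have h3 : (ρb*db) * ((1-γ')*π*s' + (1-γ)*π'*s + ρ*d) = (ρb*db) * 0 := by
    linear_combination E1 + E2 + ρ*d*Pb
  have h4 := mul_left_cancel₀ (mul_ne_zero hρb hdb) h3
  linear_combination P - h4

lemma alg_ll1m (γ γb γ' γ'b s' s'b d db m mb : F)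
    (a1 : (1-γ')*s'*db*mb = -(m*s'b*d)) (U : γ + γb = γ*γb) (U' : γ' + γ'b = γ'*γ'b) :
    (γb-γ'b)*s'b*γ*d*m + (γ-γ')*s'*γb*db*mb = 0 := by
  linear_combination (γb-γ'b)*γ*a1 + s'*db*mb*(γ*U'-γ'*U)

lemma alg_ll1p (γ γb γ' γ'b s sb d db l lb : F)
    (a2 : (1-γ)*l*db*s = -(sb*d*lb)) (U : γ + γb = γ*γb) (U' : γ' + γ'b = γ'*γ'b) :
    γ'b*db*(γ'-γ)*s*l + γ'*d*(γ'b-γb)*sb*lb = 0 := by
  linear_combination γ'*(γ'b-γb)*a2 + l*db*s*(-γ*U'+γ'*U)

lemma alg_ll3m (γ γb γ' γ'b s sb s' s'b d db m mb η ηb : F) (hg : γ' ≠ 0) (hs : s' ≠ 0)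
    (a1 : (1-γ')*s'*db*mb = -(m*s'b*d)) (U : γ + γb = γ*γb) (U' : γ' + γ'b = γ'*γ'b)
    (V1 : γ'b*s'b*γ*s*η + γ'*s'*γb*sb*ηb = 0) :
    (1-γ)*(γ*s*η)*(-(γb*db*mb)) = (-(γ*d*m))*(γb*sb*ηb) := by
  apply mul_left_cancel₀ (mul_ne_zero hg hs)
  linear_combination (γ*d*m)*V1 - (γ^2*s*η*γ'b)*a1 + γ*s*s'*η*db*mb*(-γ'*U+γ*U')

lemma alg_ll3p (γ γb γ' γ'b s sb s' s'b d db l lb η ηb : F) (hg : γb ≠ 0) (hs : sb ≠ 0)
    (a2 : (1-γ)*l*db*s = -(sb*d*lb)) (U : γ + γb = γ*γb) (U' : γ' + γ'b = γ'*γ'b)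
    (V1 : γ'b*s'b*γ*s*η + γ'*s'*γb*sb*ηb = 0) :
    (1-γ')*(-(γ'b*db*l))*(γ'*s'*ηb) = (γ'b*s'b*η)*(-(γ'*d*lb)) := by
  apply mul_left_cancel₀ (mul_ne_zero hg hs)
  linear_combination (-(1-γ')*γ'b*db*l)*V1 + (γ'b*s'b*η*γ'*γb)*a2 + γ'b*s'b*η*l*db*s*(γ*U'-γ'*U)

lemma alg_q1 (s sb s' s'b d db m mb l lb ρ ρb π πb π' π'b : F) (hm : m ≠ 0) (hd : d ≠ 0) (hsb : sb ≠ 0)
    (a1 : s'*db*mb = -(m*s'b*d)) (a2 : l*db*s = -(sb*d*lb))
    (e1 : ρb*π*m + ρ*πb*mb = 0)
    (P : d*ρ + s'*π + s*π' = 0) (Pb : db*ρb + s'b*πb + sb*π'b = 0) : π'b*ρ*l + π'*ρb*lb = 0 := by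
  have E1 : ρb*db*π*s' = ρ*d*πb*s'b := by
    apply mul_left_cancel₀ hm
    linear_combination (s'*db)*e1 + (-ρ*πb)*a1
  have E2 : ρb*db*π'*s = ρ*d*π'b*sb := by
    linear_combination -E1 + ρb*db*P - ρ*d*Pb
  apply mul_left_cancel₀ (mul_ne_zero hd hsb)
  linear_combination (-l)*E2 + (π'*ρb)*a2

lemma alg_q2 (γ h hb m mb l lb κ κb ρ ρb π πb : F) (hhb : hb ≠ 0) (hmb : mb ≠ 0)
    (s1 : (1-γ)*l*κb*h = κ*hb*lb) (s2 : (1-γ)*h*mb = m*hb) (e1 : ρb*π*m + ρ*πb*mb = 0) :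
    κb*πb*ρ*l + κ*π*ρb*lb = 0 := by
  apply mul_left_cancel₀ (mul_ne_zero hhb hmb)
  linear_combination (-(π*ρb*mb))*s1 + (π*ρb*l*κb)*s2 + κb*l*hb*e1

end pure

lemma lu {γ h m : ℂ} (hh : h ≠ 0) (hm : m ≠ 0) (st : (1-γ)*h*conj m = m*conj h) : γ + conj γ = γ*conj γ := by
  have st2 := congrArg conj st
  simp only [map_mul, map_sub, map_one, conj_conj] at st2
  have hh' : conj h ≠ 0 := by simpa using hh
  have hm' : conj m ≠ 0 := by simpa using hm
  apply mul_left_cancel₀ (mul_ne_zero (mul_ne_zero hh hm) (mul_ne_zero hh' hm'))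
  linear_combination (-(1 - conj γ) * conj h * m) * st - (m * conj h) * st2

lemma la1 {Hm H : Herm} {p r p' : ℂ × ℂ} {γ' : ℂ} (hHp : H.f p p = 0) (hHr : H.f r r = 0) (hHp' : H.f p' p' = 0)
    (hh : H.f p r ≠ 0) (st : (1-γ')*H.f p r*conj (Hm.f p r) = Hm.f p r*conj (H.f p r)) :
    (1-γ')*br p' r*conj (br p p')*conj (Hm.f p r) = -(Hm.f p r*conj (br p' r)*br p p') := by
  have e := expand H p r p'
  rw [hHp, hHr, hHp'] at e
  apply mul_left_cancel₀ hh
  linear_combination (br p' r * conj (br p p')) * st - Hm.f p r * e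

lemma la2 {Hp H : Herm} {p r p' : ℂ × ℂ} {γ : ℂ} (hHp : H.f p p = 0) (hHr : H.f r r = 0) (hHp' : H.f p' p' = 0)
    (hg : H.f r p' ≠ 0) (st : (1-γ)*Hp.f r p'*conj (H.f r p') = H.f r p'*conj (Hp.f r p')) :
    (1-γ)*Hp.f r p'*conj (br p p')*br r p = -(conj (br r p)*br p p'*conj (Hp.f r p')) := by
  have e := expand H r p' p
  rw [hHp, hHr, hHp'] at e
  apply mul_left_cancel₀ hg
  linear_combination (-(br p p' * conj (br r p))) * st - (1-γ) * Hp.f r p' * e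

/-- all local data at a replaced vertex -/
structure LD (Hm H Hp : Herm) (p r p' : ℂ × ℂ) (γ γ' : ℂ) : Prop where
  m1 : Hm.f p p = 0
  m2 : Hm.f r r = 0
  h1 : H.f p p = 0
  h2 : H.f r r = 0
  h3 : H.f p' p' = 0
  p1 : Hp.f r r = 0
  p2 : Hp.f p' p' = 0
  s : br r p ≠ 0
  s' : br p' r ≠ 0
  nm : Hm.nz
  nh : H.nz
  np : Hp.nz
  stm : (1-γ')*H.f p r*conj (Hm.f p r) = Hm.f p r*conj (H.f p r)
  stp : (1-γ)*Hp.f r p'*conj (H.f r p') = H.f r p'*conj (Hp.f r p')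

lemma br_swap (u v : ℂ × ℂ) : br u v = - br v u := by simp only [br]; ring

namespace LD
variable {Hm H Hp : Herm} {p r p' : ℂ × ℂ} {γ γ' : ℂ}

noncomputable def Q (p r p' : ℂ × ℂ) (γ γ' : ℂ) : ℂ × ℂ := (γ * br r p) • p' + (γ' * br p' r) • p

lemma brpr (D : LD Hm H Hp p r p' γ γ') : br p r ≠ 0 := by rw [br_swap]; exact neg_ne_zero.mpr D.s
lemma brrp' (D : LD Hm H Hp p r p' γ γ') : br r p' ≠ 0 := by rw [br_swap]; exact neg_ne_zero.mpr D.s'
lemma fm (D : LD Hm H Hp p r p' γ γ') : Hm.f p r ≠ 0 := f_ne D.nm D.brpr D.m1 D.m2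
lemma fh (D : LD Hm H Hp p r p' γ γ') : H.f p r ≠ 0 := f_ne D.nh D.brpr D.h1 D.h2
lemma fg (D : LD Hm H Hp p r p' γ γ') : H.f r p' ≠ 0 := f_ne D.nh D.brrp' D.h2 D.h3
lemma fl (D : LD Hm H Hp p r p' γ γ') : Hp.f r p' ≠ 0 := f_ne D.np D.brrp' D.p1 D.p2
lemma U' (D : LD Hm H Hp p r p' γ γ') : γ' + conj γ' = γ' * conj γ' := lu D.fh D.fm D.stm
lemma U (D : LD Hm H Hp p r p' γ γ') : γ + conj γ = γ * conj γ := lu D.fl D.fg D.stp
lemma a1 (D : LD Hm H Hp p r p' γ γ') :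
    (1-γ')*br p' r*conj (br p p')*conj (Hm.f p r) = -(Hm.f p r*conj (br p' r)*br p p') :=
  la1 D.h1 D.h2 D.h3 D.fh D.stm
lemma a2 (D : LD Hm H Hp p r p' γ γ') :
    (1-γ)*Hp.f r p'*conj (br p p')*br r p = -(conj (br r p)*br p p'*conj (Hp.f r p')) :=
  la2 D.h1 D.h2 D.h3 D.fg D.stp

lemma e1 (D : LD Hm H Hp p r p' γ γ') {X : ℂ × ℂ} (hX : Hm.f X X = 0) :
    conj (br r X) * br p X * Hm.f p r + br r X * conj (br p X) * conj (Hm.f p r) = 0 := by
  have e := expand Hm p r X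
  rw [D.m1, D.m2, hX] at e
  have h : br X r = - br r X := br_swap _ _
  rw [h, map_neg] at e
  linear_combination e

lemma e2' (D : LD Hm H Hp p r p' γ γ') (X : ℂ × ℂ) :
    conj (br r p') * br r p' * Hp.f X X = -(conj (br p' X) * br r X * Hp.f r p' + br p' X * conj (br r X) * conj (Hp.f r p')) := by
  have e := expand Hp r p' X
  rw [D.p1, D.p2] at e
  have h : br X p' = - br p' X := br_swap _ _
  rw [h, map_neg] at e
  linear_combination e

lemma e2 (D : LD Hm H Hp p r p' γ γ') {X : ℂ × ℂ} (hX : Hp.f X X = 0) :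
    conj (br p' X) * br r X * Hp.f r p' + br p' X * conj (br r X) * conj (Hp.f r p') = 0 := by
  have e := D.e2' X
  rw [hX] at e
  linear_combination e

lemma pl (p r p' X : ℂ × ℂ) : br p p' * br r X + br p' r * br p X + br r p * br p' X = 0 := by
  simp only [br]; ring

lemma plb (p r p' X : ℂ × ℂ) : conj (br p p') * conj (br r X) + conj (br p' r) * conj (br p X) + conj (br r p) * conj (br p' X) = 0 := by
  have := congrArg conj (pl p r p' X)
  simpa only [map_add, map_mul, map_zero] using this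

lemma cne {z : ℂ} (h : z ≠ 0) : conj z ≠ 0 := by simpa using h

lemma ll2 (D : LD Hm H Hp p r p' γ γ') {X : ℂ × ℂ} (h1 : Hm.f X X = 0) (h2 : Hp.f X X = 0) (hX : br r X ≠ 0)
    (hd : br p p' ≠ 0) : br X (Q p r p' γ γ') = 0 := by
  have := alg_ll2 γ γ' (br r p) (conj (br r p)) (br p' r) (conj (br p' r)) (br p p') (conj (br p p')) (Hm.f p r)
    (conj (Hm.f p r)) (Hp.f r p') (conj (Hp.f r p')) (br r X) (conj (br r X)) (br p X) (conj (br p X)) (br p' X) (conj (br p' X))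
    D.fm D.fl (cne hX) (cne hd) D.a1 D.a2 (D.e1 h1) (D.e2 h2) (pl p r p' X) (plb p r p' X)
  simp only [Q, br, Prod.fst_add, Prod.snd_add, Prod.smul_fst, Prod.smul_snd, smul_eq_mul] at this ⊢
  linear_combination -this

lemma ll1m (D : LD Hm H Hp p r p' γ γ') : Hm.f (Q p r p' γ γ') (Q p r p' γ γ') = 0 := by
  have e := expand Hm p r (Q p r p' γ γ')
  rw [D.m1, D.m2] at e
  have q1 : br (Q p r p' γ γ') r = (γ - γ') * (br r p * br p' r) := by
    simp only [Q, br, Prod.fst_add, Prod.snd_add, Prod.smul_fst, Prod.smul_snd, smul_eq_mul]; ring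
  have q2 : br p (Q p r p' γ γ') = γ * br r p * br p p' := by
    simp only [Q, br, Prod.fst_add, Prod.snd_add, Prod.smul_fst, Prod.smul_snd, smul_eq_mul]; ring
  rw [q1, q2] at e
  simp only [map_mul, map_sub] at e
  have k := alg_ll1m γ (conj γ) γ' (conj γ') (br p' r) (conj (br p' r)) (br p p') (conj (br p p')) (Hm.f p r) (conj (Hm.f p r))
    D.a1 D.U D.U'
  have h2 : conj (br p r) * br p r ≠ 0 := mul_ne_zero (cne D.brpr) D.brpr
  apply mul_left_cancel₀ h2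
  rw [e]
  linear_combination (conj (br r p) * br r p) * k

lemma ll1p (D : LD Hm H Hp p r p' γ γ') : Hp.f (Q p r p' γ γ') (Q p r p' γ γ') = 0 := by
  have e := expand Hp r p' (Q p r p' γ γ')
  rw [D.p1, D.p2] at e
  have q1 : br (Q p r p' γ γ') p' = γ' * br p' r * br p p' := by
    simp only [Q, br, Prod.fst_add, Prod.snd_add, Prod.smul_fst, Prod.smul_snd, smul_eq_mul]; ring
  have q2 : br r (Q p r p' γ γ') = (γ' - γ) * (br r p * br p' r) := by
    simp only [Q, br, Prod.fst_add, Prod.snd_add, Prod.smul_fst, Prod.smul_snd, smul_eq_mul]; ring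
  rw [q1, q2] at e
  simp only [map_mul, map_sub] at e
  have k := alg_ll1p γ (conj γ) γ' (conj γ') (br r p) (conj (br r p)) (br p p') (conj (br p p')) (Hp.f r p') (conj (Hp.f r p'))
    D.a2 D.U D.U'
  have h2 : conj (br r p') * br r p' ≠ 0 := mul_ne_zero (cne D.brrp') D.brrp'
  apply mul_left_cancel₀ h2
  rw [e]
  linear_combination (conj (br p' r) * br p' r) * k

lemma Qne (D : LD Hm H Hp p r p' γ γ') {Y : ℂ × ℂ} (h1 : Hm.f Y Y = 0) (h2 : Hp.f Y Y ≠ 0) : Q p r p' γ γ' ≠ 0 := by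
  intro hQ
  apply h2
  have q1 : br (Q p r p' γ γ') r = (γ - γ') * (br r p * br p' r) := by
    simp only [Q, br, Prod.fst_add, Prod.snd_add, Prod.smul_fst, Prod.smul_snd, smul_eq_mul]; ring
  have q2 : br p (Q p r p' γ γ') = γ * br r p * br p p' := by
    simp only [Q, br, Prod.fst_add, Prod.snd_add, Prod.smul_fst, Prod.smul_snd, smul_eq_mul]; ring
  rw [hQ] at q1 q2
  have b1 : br (0 : ℂ × ℂ) r = 0 := by simp [br]
  have b2 : br p (0 : ℂ × ℂ) = 0 := by simp [br]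
  rw [b1] at q1
  rw [b2] at q2
  have g1 : γ - γ' = 0 := (mul_eq_zero.mp q1.symm).resolve_right (mul_ne_zero D.s D.s')
  have g2 : γ' = γ := by linear_combination -g1
  have h3 : conj (br r p') * br r p' ≠ 0 := mul_ne_zero (cne D.brrp') D.brrp'
  apply mul_left_cancel₀ h3
  rw [D.e2' Y, mul_zero, neg_eq_zero]
  by_cases hd : br p p' = 0
  · -- p' = κ p
    obtain ⟨κ, hκ⟩ : ∃ κ : ℂ, p' = κ • p := by
      refine ⟨-(br p' r) / br r p, ?_⟩
      have hs := D.s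
      have i1 : br r p * p'.1 = -(br p' r) * p.1 := by
        have : br p p' * r.1 + br p' r * p.1 + br r p * p'.1 = 0 := by simp only [br]; ring
        rw [hd] at this; linear_combination this
      have i2 : br r p * p'.2 = -(br p' r) * p.2 := by
        have : br p p' * r.2 + br p' r * p.2 + br r p * p'.2 = 0 := by simp only [br]; ring
        rw [hd] at this; linear_combination this
      apply Prod.ext
      · simp only [Prod.smul_fst, smul_eq_mul]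
        field_simp
        linear_combination i1
      · simp only [Prod.smul_snd, smul_eq_mul]
        field_simp
        linear_combination i2
    have s2 := D.stm
    rw [g2] at s2
    have s1 := D.stp
    have hg : H.f r p' = κ * conj (H.f p r) := by
      rw [f_conj, hκ]; simp only [Herm.f, Prod.smul_fst, Prod.smul_snd, smul_eq_mul]; ring
    rw [hg] at s1
    simp only [map_mul, conj_conj] at s1
    have hk := alg_q2 γ (H.f p r) (conj (H.f p r)) (Hm.f p r) (conj (Hm.f p r)) (Hp.f r p') (conj (Hp.f r p')) κ (conj κ)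
      (br r Y) (conj (br r Y)) (br p Y) (conj (br p Y)) (cne D.fh) (cne D.fm) (by linear_combination s1) s2 (D.e1 h1)
    have hb : br p' Y = κ * br p Y := by
      rw [hκ]; simp only [br, Prod.smul_fst, Prod.smul_snd, smul_eq_mul]; ring
    rw [hb, map_mul]
    linear_combination hk
  · have g3 : γ = 0 := by
      have := (mul_eq_zero.mp q2.symm).resolve_right hd
      exact (mul_eq_zero.mp this).resolve_right D.s
    have g4 : γ' = 0 := by rw [g2, g3]
    have a1 := D.a1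
    have a2 := D.a2
    rw [g4] at a1
    rw [g3] at a2
    exact alg_q1 (br r p) (conj (br r p)) (br p' r) (conj (br p' r)) (br p p') (conj (br p p')) (Hm.f p r)
      (conj (Hm.f p r)) (Hp.f r p') (conj (Hp.f r p')) (br r Y) (conj (br r Y)) (br p Y) (conj (br p Y)) (br p' Y) (conj (br p' Y))
      D.fm hd (cne D.s) (by linear_combination a1) (by linear_combination a2) (D.e1 h1) (pl p r p' Y) (plb p r p' Y)

/-- new relations at the two edges of the new vertex -/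
lemma ll3 (D : LD Hm H Hp p r p' γ γ') {G : Herm} (hd : br p p' ≠ 0)
    (g1 : G.f p p = 0) (g2 : G.f (Q p r p' γ γ') (Q p r p' γ γ') = 0) (g3 : G.f p' p' = 0)
    (hpQ : br p (Q p r p' γ γ') ≠ 0) (hQp : br (Q p r p' γ γ') p' ≠ 0) :
    ((1-γ)*G.f p (Q p r p' γ γ')*conj (Hm.f p (Q p r p' γ γ')) = Hm.f p (Q p r p' γ γ')*conj (G.f p (Q p r p' γ γ'))) ∧
    ((1-γ')*Hp.f (Q p r p' γ γ') p'*conj (G.f (Q p r p' γ γ') p') = G.f (Q p r p' γ γ') p'*conj (Hp.f (Q p r p' γ γ') p')) := by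
  have q1 : br (Q p r p' γ γ') p' = γ' * br p' r * br p p' := by
    simp only [Q, br, Prod.fst_add, Prod.snd_add, Prod.smul_fst, Prod.smul_snd, smul_eq_mul]; ring
  have q2 : br p (Q p r p' γ γ') = γ * br r p * br p p' := by
    simp only [Q, br, Prod.fst_add, Prod.snd_add, Prod.smul_fst, Prod.smul_snd, smul_eq_mul]; ring
  have hγ : γ ≠ 0 := by rintro rfl; apply hpQ; rw [q2]; ring
  have hγ' : γ' ≠ 0 := by rintro rfl; apply hQp; rw [q1]; ring
  have V0 := expand G p p' (Q p r p' γ γ')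
  rw [g1, g2, g3, q1, q2] at V0
  simp only [map_mul] at V0
  have V1 : conj γ' * conj (br p' r) * γ * br r p * G.f p p' + γ' * br p' r * conj γ * conj (br r p) * conj (G.f p p') = 0 := by
    apply mul_left_cancel₀ (mul_ne_zero (cne hd) hd)
    linear_combination -V0
  have x1 : G.f p (Q p r p' γ γ') = γ * br r p * G.f p p' := by
    have : G.f p (Q p r p' γ γ') = γ * br r p * G.f p p' + γ' * br p' r * G.f p p := by
      simp only [Q, Herm.f, Prod.fst_add, Prod.snd_add, Prod.smul_fst, Prod.smul_snd, smul_eq_mul]; ring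
    rw [this, g1]; ring
  have x2 : Hm.f p (Q p r p' γ γ') = -(γ * br p p' * Hm.f p r) := by
    have : br p r * Hm.f p (Q p r p' γ γ') = br p (Q p r p' γ γ') * Hm.f p r + br (Q p r p' γ γ') r * Hm.f p p := by
      simp only [Herm.f, br]; ring
    rw [D.m1, q2, br_swap p r] at this
    apply mul_left_cancel₀ D.s
    linear_combination -this
  have x3 : G.f (Q p r p' γ γ') p' = conj γ' * conj (br p' r) * G.f p p' := by
    have : G.f (Q p r p' γ γ') p' = conj γ * conj (br r p) * G.f p' p' + conj γ' * conj (br p' r) * G.f p p' := by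
      simp only [Q, Herm.f, Prod.fst_add, Prod.snd_add, Prod.smul_fst, Prod.smul_snd, smul_eq_mul, map_add, map_mul]; ring
    rw [this, g3]; ring
  have x4 : Hp.f (Q p r p' γ γ') p' = -(conj γ' * conj (br p p') * Hp.f r p') := by
    have : conj (br r p') * Hp.f (Q p r p' γ γ') p' = conj (br (Q p r p' γ γ') p') * Hp.f r p' + conj (br r (Q p r p' γ γ')) * Hp.f p' p' := by
      simp only [Herm.f, br, map_sub, map_mul]; ring
    rw [D.p2, q1, br_swap r p'] at this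
    simp only [map_neg, map_mul] at this
    apply mul_left_cancel₀ (cne D.s')
    linear_combination -this
  constructor
  · rw [x1, x2]
    simp only [map_neg, map_mul]
    exact alg_ll3m γ (conj γ) γ' (conj γ') (br r p) (conj (br r p)) (br p' r) (conj (br p' r)) (br p p') (conj (br p p'))
      (Hm.f p r) (conj (Hm.f p r)) (G.f p p') (conj (G.f p p')) hγ' D.s' D.a1 D.U D.U' V1
  · rw [x3, x4]
    simp only [map_neg, map_mul, conj_conj]
    exact alg_ll3p γ (conj γ) γ' (conj γ') (br r p) (conj (br r p)) (br p' r) (conj (br p' r)) (br p p') (conj (br p p'))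
      (Hp.f r p') (conj (Hp.f r p')) (G.f p p') (conj (G.f p p')) (cne hγ) (cne D.s) D.a2 D.U D.U' V1

end LD

end Pool.Agent.X98.CI
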