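import Pool.Agent.X98.CI.Chain
import Pool.Agent.X98.CI.Init
namespace Pool.Agent.X98.CI
open Complex OnePoint
open scoped ComplexConjugate

noncomputable section

lemma mk_herm (p q : ℂ × ℂ) (η : ℂ) : ∃ H : Herm, ∀ X Y, H.f X Y = conj (br X q) * br p Y * η + conj (br p X) * br Y q * conj η := by
  refine ⟨⟨2 * (conj q.2 * (-p.2) * η).re, conj q.2 * p.1 * η + conj p.2 * q.1 * conj η, 2 * (conj (-q.1) * p.1 * η).re⟩, ?_⟩
  intro X Y
  have h : ∀ z : ℂ, ((2 * z.re : ℝ) : ℂ) = z + conj z := fun z => (add_conj z).symm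
  simp only [Herm.f, h, br, map_add, map_mul, map_neg, map_sub, conj_conj]
  ring

lemma exist_three {P Q R : OnePoint ℂ} (h12 : P ≠ Q) (h13 : P ≠ R) (h23 : Q ≠ R) :
    ∃ H : Herm, H.nz ∧ P ∈ Z H ∧ Q ∈ Z H ∧ R ∈ Z H := by
  obtain ⟨H, hH⟩ := mk_herm (rep P) (rep R) (Complex.I * br (rep Q) (rep R) * conj (br (rep P) (rep Q)))
  have a1 : br (rep Q) (rep R) ≠ 0 := by rwa [Ne, rep_br]
  have a2 : br (rep P) (rep Q) ≠ 0 := by rwa [Ne, rep_br]
  have a3 : br (rep P) (rep R) ≠ 0 := by rwa [Ne, rep_br]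
  have z1 : br (rep P) (rep P) = 0 := by simp only [br]; ring
  have z2 : br (rep R) (rep R) = 0 := by simp only [br]; ring
  refine ⟨H, ?_, ?_, ?_, ?_⟩
  · rintro ⟨h1, h2, h3⟩
    have h4 := hH (rep P) (rep R)
    have h5 : H.f (rep P) (rep R) = 0 := by simp [Herm.f, h1, h2, h3]
    rw [h5, z1, z2] at h4
    have h6 : conj (br (rep P) (rep R)) * br (rep P) (rep R) * (Complex.I * br (rep Q) (rep R) * conj (br (rep P) (rep Q))) = 0 := by
      linear_combination -h4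
    exact mul_ne_zero (mul_ne_zero (LD.cne a3) a3) (mul_ne_zero (mul_ne_zero I_ne_zero a1) (LD.cne a2)) h6
  · show H.f _ _ = 0
    rw [hH, z1]; simp
  · show H.f _ _ = 0
    rw [hH]
    simp only [map_mul, conj_conj, conj_I]
    ring
  · show H.f _ _ = 0
    rw [hH, z2]; simp

instance : Nonempty Herm := ⟨⟨0, 0, 0⟩⟩

/-- a chosen form of the circle through three points -/
def Kf (P Q R : OnePoint ℂ) : Herm := Classical.epsilon (fun H : Herm => H.nz ∧ P ∈ Z H ∧ Q ∈ Z H ∧ R ∈ Z H)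

lemma Kf_spec {P Q R : OnePoint ℂ} (h12 : P ≠ Q) (h13 : P ≠ R) (h23 : Q ≠ R) :
    (Kf P Q R).nz ∧ P ∈ Z (Kf P Q R) ∧ Q ∈ Z (Kf P Q R) ∧ R ∈ Z (Kf P Q R) :=
  Classical.epsilon_spec (p := fun H : Herm => H.nz ∧ P ∈ Z H ∧ Q ∈ Z H ∧ R ∈ Z H) (exist_three h12 h13 h23)

/-- `Γ` is the circle through the three distinct points `P, Q, R`. -/
def Thru (P Q R : OnePoint ℂ) (Γ : Set (OnePoint ℂ)) : Prop :=
  IsCircle Γ ∧ P ∈ Γ ∧ Q ∈ Γ ∧ R ∈ Γ ∧ P ≠ Q ∧ P ≠ R ∧ Q ≠ R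

lemma Z_eq {P Q R : OnePoint ℂ} {Γ : Set (OnePoint ℂ)} (h : Thru P Q R Γ) : Γ = Z (Kf P Q R) := by
  obtain ⟨hc, hP, hQ, hR, h12, h13, h23⟩ := h
  obtain ⟨H, hH, rfl⟩ := circle_herm hc
  obtain ⟨k0, k1, k2, k3⟩ := Kf_spec h12 h13 h23
  have a1 : br (rep P) (rep Q) ≠ 0 := by rwa [Ne, rep_br]
  have a2 : br (rep P) (rep R) ≠ 0 := by rwa [Ne, rep_br]
  have a3 : br (rep R) (rep Q) ≠ 0 := by rw [Ne, rep_br]; exact h23.symm
  ext X
  exact ⟨fun hX => same hH k0 a1 a2 a3 hP hQ hR k1 k2 k3 _ hX, fun hX => same k0 hH a1 a2 a3 k1 k2 k3 hP hQ hR _ hX⟩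

lemma lift_per {α : Type*} {n : ℕ} [NeZero n] {g : ℤ → α} (hg : ∀ m, g (m + n) = g m) :
    ∃ gz : ZMod n → α, ∀ m : ℤ, gz (m : ZMod n) = g m := by
  refine ⟨fun k => g k.val, fun m => ?_⟩
  have hper : Function.Periodic g (n:ℤ) := hg
  have h1 : (((m : ZMod n).val : ℕ) : ℤ) = m % n := ZMod.val_intCast m
  simp only [h1]
  have h2 : m % n = m - (m / n) * n := by have := Int.emod_add_mul_ediv m n; linarith
  rw [h2]
  have := hper.sub_zsmul_eq (m / n) (x := m)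
  simpa [smul_eq_mul] using this

theorem start {n : ℕ} (hn : 3 ≤ n) (O : OnePoint ℂ) (R0 : ℤ → OnePoint ℂ) (H0 : ℤ → Herm)
    (hR0 : ∀ j, Even j → R0 j = O) (hR1 : ∀ j, ¬ Even j → R0 j ≠ O)
    (hRp : ∀ j, R0 (j + 2*n) = R0 j) (hHp : ∀ j, H0 (j + 2*n) = H0 j)
    (hb : ∀ j, (H0 j).nz ∧ R0 (j-1) ∈ Z (H0 j) ∧ R0 j ∈ Z (H0 j) ∧ R0 (j+1) ∈ Z (H0 j)) :
    ∃ (A0 : ℤ → ℂ × ℂ) (c0 : ℤ → ℂ) (e0 : ℤ → Polynomial ℂ),
      (∀ j, ∃ τ : ℂ, τ ≠ 0 ∧ A0 j = τ • rep (R0 j)) ∧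
      (∀ j, (1 - c0 j) * (H0 (j+1)).f (A0 j) (A0 (j+1)) * conj ((H0 j).f (A0 j) (A0 (j+1)))
        = (H0 j).f (A0 j) (A0 (j+1)) * conj ((H0 (j+1)).f (A0 j) (A0 (j+1)))) ∧
      Inv 0 A0 c0 e0 ∧ Bnd 0 e0 (n-1) (n-2) ∧ ∃ i, e0 i ≠ 0 := by
  classical
  have : NeZero n := ⟨by omega⟩
  set o := rep O with ho
  have ho0 : o ≠ 0 := rep_ne O
  let A0 : ℤ → ℂ × ℂ := fun j => if Even j then o else (br (rep (R0 j)) o)⁻¹ • rep (R0 j)
  have hAe : ∀ j, Even j → A0 j = o := fun j h => by simp only [A0, h, if_true]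
  have hAo : ∀ j, ¬ Even j → A0 j = (br (rep (R0 j)) o)⁻¹ • rep (R0 j) := fun j h => by simp only [A0, h, if_false]
  have hA1 : ∀ j, ¬ Even j → br (A0 j) o = 1 := by
    intro j h
    have h1 : br (rep (R0 j)) o ≠ 0 := by rw [ho, Ne, rep_br]; exact hR1 j h
    rw [hAo j h]
    have := br_smul (br (rep (R0 j)) o)⁻¹ 1 (rep (R0 j)) o
    rw [one_smul] at this
    rw [this, mul_one, inv_mul_cancel₀ h1]
  have ha : ∀ j, ∃ τ : ℂ, τ ≠ 0 ∧ A0 j = τ • rep (R0 j) := by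
    intro j
    by_cases h : Even j
    · exact ⟨1, one_ne_zero, by rw [hAe j h, hR0 j h, one_smul]⟩
    · have h1 : br (rep (R0 j)) o ≠ 0 := by rw [ho, Ne, rep_br]; exact hR1 j h
      exact ⟨_, inv_ne_zero h1, hAo j h⟩
  have evp : ∀ j : ℤ, Even (j + 2*n) ↔ Even j := by
    intro j; rw [Int.even_iff, Int.even_iff]; omega
  have hAp : ∀ j, A0 (j + 2*n) = A0 j := by
    intro j; simp only [A0, evp, hRp]
  have hRne : ∀ j, R0 j ≠ R0 (j+1) := by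
    intro j
    by_cases h : Even j
    · rw [hR0 j h]
      exact (hR1 (j+1) (by rw [Int.even_add_one, not_not]; exact h)).symm
    · rw [hR0 (j+1) (by rw [Int.even_add_one]; exact h)]
      exact hR1 j h
  have hf1 : ∀ j, (H0 j).f (A0 j) (A0 (j+1)) ≠ 0 := fun j =>
    f_ne (hb j).1 (brne (hRne j) (ha _) (ha _)) (van (hb j).2.2.1 (ha _)) (van (hb j).2.2.2 (ha _))
  have hf2 : ∀ j, (H0 (j+1)).f (A0 j) (A0 (j+1)) ≠ 0 := by
    intro j
    have hb' := (hb (j+1)).2.1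
    rw [add_sub_cancel_right] at hb'
    exact f_ne (hb (j+1)).1 (brne (hRne j) (ha _) (ha _)) (van hb' (ha _)) (van (hb (j+1)).2.2.1 (ha _))
  let c0 : ℤ → ℂ := fun j => 1 - (H0 j).f (A0 j) (A0 (j+1)) * conj ((H0 (j+1)).f (A0 j) (A0 (j+1))) /
    ((H0 (j+1)).f (A0 j) (A0 (j+1)) * conj ((H0 j).f (A0 j) (A0 (j+1))))
  have hc : ∀ j, (1 - c0 j) * (H0 (j+1)).f (A0 j) (A0 (j+1)) * conj ((H0 j).f (A0 j) (A0 (j+1)))
        = (H0 j).f (A0 j) (A0 (j+1)) * conj ((H0 (j+1)).f (A0 j) (A0 (j+1))) := by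
    intro j
    have k1 := hf2 j
    have k2 := LD.cne (hf1 j)
    simp only [c0]
    rw [sub_sub_cancel, mul_assoc, div_mul_cancel₀ _ (mul_ne_zero k1 k2)]
  have hcp : ∀ j, c0 (j + 2*n) = c0 j := by
    intro j
    have e : j + 2*n + 1 = j + 1 + 2*n := by ring
    simp only [c0, e, hAp, hHp]
  clear_value A0 c0
  -- facts at integer m
  have ev2 : ∀ m : ℤ, Even (2*m) := fun m => even_two_mul m
  have od1 : ∀ m : ℤ, ¬ Even (2*m+1) := fun m => by rw [Int.even_iff]; omega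
  have odm : ∀ m : ℤ, ¬ Even (2*m-1) := fun m => by rw [Int.even_iff]; omega
  have F1 : ∀ m : ℤ, br (A0 (2*m-1)) (A0 (2*m+1)) • o = A0 (2*m+1) - A0 (2*m-1) := by
    intro m
    have k1 := hA1 _ (od1 m)
    have k2 := hA1 _ (odm m)
    have i1 : br (A0 (2*m-1)) (A0 (2*m+1)) * o.1 + br (A0 (2*m+1)) o * (A0 (2*m-1)).1 - br (A0 (2*m-1)) o * (A0 (2*m+1)).1 = 0 := by
      simp only [br]; ring
    have i2 : br (A0 (2*m-1)) (A0 (2*m+1)) * o.2 + br (A0 (2*m+1)) o * (A0 (2*m-1)).2 - br (A0 (2*m-1)) o * (A0 (2*m+1)).2 = 0 := by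
      simp only [br]; ring
    rw [k1, k2] at i1 i2
    apply Prod.ext
    · simp only [Prod.smul_fst, smul_eq_mul, Prod.fst_sub]; linear_combination i1
    · simp only [Prod.smul_snd, smul_eq_mul, Prod.snd_sub]; linear_combination i2
  have foo : ∀ m : ℤ, (H0 (2*m)).f o o = 0 := by
    intro m
    have := van (hb (2*m)).2.2.1 (ha _)
    rwa [hAe _ (ev2 m)] at this
  have hθ : ∀ m : ℤ, (H0 (2*m)).f o (A0 (2*m+1)) ≠ 0 := by
    intro m
    have := hf1 (2*m)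
    rwa [hAe _ (ev2 m)] at this
  have hθ' : ∀ m : ℤ, (H0 (2*m)).f o (A0 (2*m+1)) = (H0 (2*m)).f o (A0 (2*m-1)) := by
    intro m
    have h1 : A0 (2*m+1) = A0 (2*m-1) + br (A0 (2*m-1)) (A0 (2*m+1)) • o := by rw [F1]; abel
    have h2 : (H0 (2*m)).f o (A0 (2*m-1) + br (A0 (2*m-1)) (A0 (2*m+1)) • o)
      = (H0 (2*m)).f o (A0 (2*m-1)) + br (A0 (2*m-1)) (A0 (2*m+1)) * (H0 (2*m)).f o o := by
      simp only [Herm.f, Prod.fst_add, Prod.snd_add, Prod.smul_fst, Prod.smul_snd, smul_eq_mul]; ring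
    rw [← h1, foo] at h2
    rw [h2]; ring
  obtain ⟨αz, hα⟩ := lift_per (n := n) (g := fun m => c0 (2*m)) (by
    intro m
    have := hcp (2*m)
    rw [← this]; congr 1; ring)
  obtain ⟨βz, hβ⟩ := lift_per (n := n) (g := fun m => c0 (2*m+1)) (by
    intro m
    have := hcp (2*m+1)
    rw [← this]; congr 1; ring)
  obtain ⟨dz, hd⟩ := lift_per (n := n) (g := fun m => br (A0 (2*m-1)) (A0 (2*m+1))) (by
    intro m
    have e1 : 2 * (m + (n:ℤ)) - 1 = 2*m - 1 + 2*n := by ring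
    have e2 : 2 * (m + (n:ℤ)) + 1 = 2*m + 1 + 2*n := by ring
    simp only [e1, e2, hAp])
  obtain ⟨wz, hw⟩ := lift_per (n := n) (g := fun m => conj ((H0 (2*m)).f o (A0 (2*m+1))) / (H0 (2*m)).f o (A0 (2*m+1))) (by
    intro m
    have e1 : 2 * (m + (n:ℤ)) = 2*m + 2*n := by ring
    have e2 : 2 * (m + (n:ℤ)) + 1 = 2*m + 1 + 2*n := by ring
    have e3 : 2*m + 2*(n:ℤ) + 1 = 2*m + 1 + 2*n := by ring
    simp only [e1, e3, hAp, hHp])
  obtain ⟨ξz, hξ⟩ := lift_per (n := n) (g := fun m => A0 (2*m+1)) (by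
    intro m
    have e2 : 2 * (m + (n:ℤ)) + 1 = 2*m + 1 + 2*n := by ring
    simp only [e2, hAp])
  have hdξ : ∀ k : ZMod n, dz k • o = ξz k - ξz (k-1) := by
    intro k
    obtain ⟨m, rfl⟩ := ZMod.intCast_surjective k
    have e1 : ((m : ℤ) : ZMod n) - 1 = ((m - 1 : ℤ) : ZMod n) := by push_cast; ring
    rw [e1, hd, hξ, hξ]
    have e2 : 2 * (m - 1) + 1 = 2*m - 1 := by ring
    rw [e2, F1]
  have hsum0 : ∑ k, dz k = 0 := by
    have h1 : ∑ k, (ξz k - ξz (k-1)) = 0 := by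
      rw [Finset.sum_sub_distrib]
      have : ∑ k, ξz (k-1) = ∑ k, ξz k := Fintype.sum_equiv (Equiv.subRight (1 : ZMod n)) _ _ (fun _ => rfl)
      rw [this, sub_self]
    have h2 : (∑ k, dz k) • o = 0 := by
      rw [Finset.sum_smul, ← h1]
      exact Finset.sum_congr rfl (fun k _ => hdξ k)
    exact (smul_eq_zero.mp h2).resolve_right ho0
  have F4 : ∀ k : ZMod n, wz k * dz k = - conj (dz k) := by
    intro k
    obtain ⟨m, rfl⟩ := ZMod.intCast_surjective k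
    rw [hw, hd]
    have hv := van (hb (2*m)).2.1 (ha _)
    have hv2 := van (hb (2*m)).2.2.2 (ha _)
    have h1 : A0 (2*m-1) = A0 (2*m+1) - br (A0 (2*m-1)) (A0 (2*m+1)) • o := by rw [F1]; abel
    set d := br (A0 (2*m-1)) (A0 (2*m+1))
    have h2 : (H0 (2*m)).f (A0 (2*m+1) - d • o) (A0 (2*m+1) - d • o) = (H0 (2*m)).f (A0 (2*m+1)) (A0 (2*m+1))
        - conj d * (H0 (2*m)).f o (A0 (2*m+1)) - d * (H0 (2*m)).f (A0 (2*m+1)) o + conj d * d * (H0 (2*m)).f o o := by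
      simp only [Herm.f, Prod.fst_sub, Prod.snd_sub, Prod.smul_fst, Prod.smul_snd, smul_eq_mul, map_sub, map_mul]; ring
    rw [← h1, hv, hv2, foo, ← f_conj _ o] at h2
    have h3 := hθ m
    field_simp
    linear_combination h2
  have hsum1 : ∑ k, wz k * dz k = 0 := by
    simp only [F4, Finset.sum_neg_distrib]
    rw [← map_sum, hsum0]; simp
  have hwn : ∀ k, wz k ≠ 0 := by
    intro k
    obtain ⟨m, rfl⟩ := ZMod.intCast_surjective k
    rw [hw]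
    exact div_ne_zero (LD.cne (hθ m)) (hθ m)
  have h1 : ∀ k, wz k * (1 - αz k) = wz (k+1) * (1 - βz k) := by
    intro k
    obtain ⟨m, rfl⟩ := ZMod.intCast_surjective k
    have e1 : ((m : ℤ) : ZMod n) + 1 = ((m + 1 : ℤ) : ZMod n) := by push_cast; ring
    rw [e1, hw, hw, hα, hβ]
    have e2 : 2 * (m + 1) = 2*m + 1 + 1 := by ring
    have c1 := hc (2*m)
    have c2 := hc (2*m+1)
    have hθ1 := hθ m
    have hθ2 := hθ (m+1)
    have e5 := hθ' (m+1)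
    have e6 : 2 * (m+1) - 1 = 2*m+1 := by ring
    rw [e6] at e5
    rw [hAe _ (ev2 m)] at c1
    have e7 : A0 (2*m+1+1) = o := by rw [← e2]; exact hAe _ (ev2 _)
    rw [e7, ← f_conj _ o, ← f_conj _ o, conj_conj, conj_conj, ← e2, ← e5] at c2
    have hφ := hf2 (2*m)
    rw [hAe _ (ev2 m)] at hφ
    set θ := (H0 (2*m)).f o (A0 (2*m+1))
    set θ' := (H0 (2*(m+1))).f o (A0 (2*(m+1)+1))
    set φ := (H0 (2*m+1)).f o (A0 (2*m+1))
    rw [div_mul_eq_mul_div, div_mul_eq_mul_div, div_eq_div_iff hθ1 hθ2]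
    apply mul_left_cancel₀ hφ
    linear_combination θ' * c1 - θ * c2
  obtain ⟨ε, e, he1, he2, he3, he4⟩ := init_sol hn αz βz dz wz hwn h1 hsum0 hsum1
  let e0 : ℤ → Polynomial ℂ := fun j => if Even j then ε else e (((j-1)/2 : ℤ) : ZMod n)
  have e0e : ∀ m : ℤ, e0 (2*m) = ε := fun m => by simp only [e0, ev2, if_true]
  have e0o : ∀ m : ℤ, e0 (2*m+1) = e (m : ZMod n) := fun m => by
    have : (2*m+1-1)/2 = m := by omega
    simp only [e0, od1, if_false, this]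
  have e0e' : ∀ j, Even j → e0 j = ε := fun j h => by simp only [e0, h, if_true]
  refine ⟨A0, c0, e0, ha, hc, ⟨?_, ?_⟩, ⟨?_, ?_⟩, ?_⟩
  · intro i hi
    have hi' : ¬ Even i := by simpa using hi
    have hm : Even (i-1) := by rw [Int.even_iff] at *; omega
    have hp : Even (i+1) := by rw [Int.even_iff] at *; omega
    rw [e0e' _ hm, e0e' _ hp, hAe _ hm, hAe _ hp, br_swap o (A0 i), hA1 i hi']
    have : br o o = 0 := by simp only [br]; ring
    rw [this]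
    simp
  · intro i hi
    have hi' : Even i := by simpa using hi
    obtain ⟨m, hm⟩ := hi'
    have hm2 : i = 2*m := by omega
    subst hm2
    have e8 : 2*m - 1 = 2*(m-1)+1 := by ring
    have k := he1 (m : ZMod n)
    have e1 : ((m : ℤ) : ZMod n) - 1 = ((m - 1 : ℤ) : ZMod n) := by push_cast; ring
    rw [e1, hα, hβ, hd] at k
    rw [hAe _ (ev2 m), br_swap o, hA1 _ (odm m), hA1 _ (od1 m), e0e, e0o]
    rw [← e8] at k
    have e9 : e0 (2*m-1) = e ((m-1 : ℤ) : ZMod n) := by rw [e8]; exact e0o _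
    rw [e9]
    simp only [map_neg, map_one]
    linear_combination -k
  · intro i hi k hk
    have hi' : Even i := by simpa using hi
    rw [e0e' i hi']
    exact he2 k hk
  · intro i hi k hk
    have hi' : ¬ Even i := by simpa using hi
    simp only [e0, hi', if_false]
    exact he3 _ k hk
  · rcases he4 with h | ⟨k, hk⟩
    · exact ⟨2*0, by rw [e0e]; exact h⟩
    · obtain ⟨m, rfl⟩ := ZMod.intCast_surjective k
      exact ⟨2*m+1, by rw [e0o]; exact hk⟩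

end

end Pool.Agent.X98.CI
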